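import Pool.Agent.T6.H16.RW.D3

set_option autoImplicit false

/-! Divergence for products of diagonal forms. -/

namespace Pool.Agent.T6.H16.RW

open Pool.Agent.T6.H16.RA

open MvPolynomial MeasureTheory Set Metric Module Filter Topology

variable {n : ℕ} {ι : Type} [Fintype ι] [DecidableEq ι]

/-- the roots of the coordinates -/
noncomputable def rt (a : Fin n → ℕ) (y : Fin n → ℝ) : Fin n → ℝ :=
  fun i => (y i) ^ ((1 : ℝ) / a i)

lemma rt_cont (a : Fin n → ℕ) : Continuous (rt a) := by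
  unfold rt
  refine continuous_pi fun i => ?_
  exact (continuous_apply i).rpow_const fun y => Or.inr (by positivity)

lemma rt_pw {a : Fin n → ℕ} (ha0 : ∀ i, 0 < a i) {x : Fin n → ℝ} (hx : ∀ i, 0 ≤ x i) : rt a (pw a x) = x := by
  funext i
  unfold rt pw
  have ha' : (a i : ℝ) ≠ 0 := by exact_mod_cast (ha0 i).ne'
  rw [← Real.rpow_natCast, ← Real.rpow_mul (hx i), mul_one_div_cancel ha', Real.rpow_one]

lemma pw_rt {a : Fin n → ℕ} (ha0 : ∀ i, 0 < a i) {y : Fin n → ℝ} (hy : ∀ i, 0 ≤ y i) : pw a (rt a y) = y := by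
  funext i
  unfold rt pw
  have ha' : (a i : ℝ) ≠ 0 := by exact_mod_cast (ha0 i).ne'
  rw [← Real.rpow_natCast, ← Real.rpow_mul (hy i), one_div_mul_cancel ha', Real.rpow_one]

/-- **Divergence.** -/
theorem div_pow_of {α : ι → Fin n → ℝ} {m : ι → ℕ} {a : Fin n → ℕ} (ha0 : ∀ i, 0 < a i)
    {G : Submodule ℝ (Fin n → ℝ)}
    (hM : 0 < mu α m G) {p px : Fin n → ℝ} (hpx : ∀ i, 0 ≤ px i) (hpp : pw a px = p)
    {ρ c0 : ℝ} (hρ : 0 < ρ)
    (hp : ∀ j, bt α j ∈ G → bt α j ⬝ᵥ p = 0) (hc0 : 0 < c0)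
    (hout : ∀ j, bt α j ∉ G → ∀ x ∈ closedBall px ρ, c0 ≤ bt α j ⬝ᵥ pw a x)
    (hne : (Ch (bt α)).Nonempty)
    {s0 : ℝ} (hs0 : s0 = -(nuA a G : ℝ) / (PP a * mu α m G : ℕ)) (hs00 : s0 < 0)
    (hint : ∀ s, s0 < s → IntegrableOn (fun x => rv (qf α m a) x ^ s)
      (Ux α a ∩ (Pos n ∩ closedBall px ρ))) :
    ∀ R : ℝ, ∃ᶠ t in 𝓝[>] s0, R < ∫ x in Ux α a ∩ (Pos n ∩ closedBall px (ρ / 2)),
      rv (qf α m a) x ^ t := by
  classical
  intro R
  have hM' : (0 : ℝ) < mu α m G := by exact_mod_cast hM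
  have ha' : (0 : ℝ) < PP a := by exact_mod_cast PP_pos ha0
  have hw0 : ∀ i, 0 ≤ wa (a i) := fun i => wa_nonneg (ha0 i)
  obtain ⟨P, hP1, hP2, hP3⟩ := exists_proj G
  have hPc : Continuous P := LinearMap.continuous_of_finiteDimensional P
  have hpos : ∀ j, bt α j ∉ G → 0 < bt α j ⬝ᵥ p := by
    intro j hj
    have := hout j hj px (mem_closedBall_self hρ.le)
    rw [hpp] at this
    linarith
  -- the small ball
  obtain ⟨ρ', hρ', hb1, hb2⟩ : ∃ ρ' : ℝ, 0 < ρ' ∧
      (∀ y ∈ closedBall p ρ', rt a y ∈ closedBall px (ρ / 2)) ∧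
      ∀ y ∈ closedBall p ρ', ∀ j, bt α j ∉ G → 0 < bt α j ⬝ᵥ y := by
    have h1 : ∀ᶠ y in 𝓝 p, rt a y ∈ closedBall px (ρ / 2) := by
      refine (rt_cont a).continuousAt.eventually ?_
      have : rt a p = px := by rw [← hpp, rt_pw ha0 hpx]
      rw [this]
      exact closedBall_mem_nhds _ (by linarith)
    have h2 : ∀ᶠ y in 𝓝 p, ∀ j, bt α j ∉ G → 0 < bt α j ⬝ᵥ y := by
      rw [eventually_all]
      intro j
      by_cases hj : bt α j ∈ G
      · exact Eventually.of_forall fun y h3 => absurd hj h3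
      · exact (((dot_cont (bt α j)).tendsto p).eventually (lt_mem_nhds (hpos j hj))).mono
          fun c h4 _ => h4
    obtain ⟨ρ', h3, h4⟩ := nhds_basis_closedBall.eventually_iff.1 (h1.and h2)
    exact ⟨ρ', h3, fun y hy => (h4 hy).1, fun y hy => (h4 hy).2⟩
  -- a form in `G`
  obtain ⟨g, hg⟩ : ∃ g, bt α g ∈ G := by
    by_contra h
    push Not at h
    have : mu α m G = 0 := by
      unfold mu
      exact Finset.sum_eq_zero fun x _ => if_neg (h (Sum.inl x))
    omega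
  obtain ⟨u, hu⟩ := hne
  -- a small point
  obtain ⟨δ, hδ, hδ1, hδ2⟩ : ∃ δ : ℝ, 0 < δ ∧ ‖δ • u‖ < ρ' ∧ ‖δ • u - P (δ • u)‖ < ρ' := by
    refine ⟨ρ' / 2 / (‖u‖ + ‖u - P u‖ + 1), by positivity, ?_, ?_⟩
    · rw [norm_smul, Real.norm_eq_abs, abs_of_pos (by positivity), div_mul_eq_mul_div,
        div_lt_iff₀ (by positivity)]
      nlinarith [norm_nonneg u, norm_nonneg (u - P u)]
    · rw [map_smul, ← smul_sub, norm_smul, Real.norm_eq_abs, abs_of_pos (by positivity),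
        div_mul_eq_mul_div, div_lt_iff₀ (by positivity)]
      nlinarith [norm_nonneg u, norm_nonneg (u - P u)]
  set c := 2 / 3 * (bt α g ⬝ᵥ (δ • u)) with hc
  have hgu : 0 < bt α g ⬝ᵥ (δ • u) := by
    rw [dotProduct_smul]
    exact smul_pos hδ (hu g)
  have hc0' : 0 < c := by positivity
  set S0 : Set (Fin n → ℝ) := {y | (∀ j, 0 < bt α j ⬝ᵥ (p + y)) ∧ ‖y‖ < ρ' ∧ ‖y - P y‖ < ρ' ∧
    c < bt α g ⬝ᵥ y ∧ bt α g ⬝ᵥ y < 2 * c} with hS0
  have hS0o : IsOpen S0 := by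
    have e : S0 = (⋂ j, {y | 0 < bt α j ⬝ᵥ (p + y)}) ∩ ({y | ‖y‖ < ρ'} ∩
        ({y | ‖y - P y‖ < ρ'} ∩ ({y | c < bt α g ⬝ᵥ y} ∩ {y | bt α g ⬝ᵥ y < 2 * c}))) := by
      ext y
      simp [hS0]
    rw [e]
    refine IsOpen.inter ?_ (IsOpen.inter ?_ (IsOpen.inter ?_ (IsOpen.inter ?_ ?_)))
    · exact isOpen_iInter_of_finite fun h => isOpen_lt continuous_const
        ((dot_cont _).comp (continuous_const.add continuous_id))
    · exact isOpen_lt continuous_norm continuous_const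
    · exact isOpen_lt (continuous_norm.comp (continuous_id.sub hPc)) continuous_const
    · exact isOpen_lt continuous_const (dot_cont _)
    · exact isOpen_lt (dot_cont _) continuous_const
  have hS0n : S0.Nonempty := by
    refine ⟨δ • u, fun j => ?_, hδ1, hδ2, ?_, ?_⟩
    · have h1 : 0 < bt α j ⬝ᵥ (δ • u) := by
        rw [dotProduct_smul]
        exact smul_pos hδ (hu j)
      rw [dotProduct_add]
      by_cases hh : bt α j ∈ G
      · rw [hp j hh, zero_add]
        exact h1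
      · have := hpos j hh
        linarith
    · rw [hc]
      linarith
    · rw [hc]
      linarith
  have hμ0 : volume S0 ≠ 0 := (hS0o.measure_pos _ hS0n).ne'
  have hμt : volume S0 ≠ ⊤ := by
    refine (lt_of_le_of_lt (measure_mono (t := closedBall 0 ρ') fun y hy => ?_)
      measure_closedBall_lt_top).ne
    rw [mem_closedBall_zero_iff]
    exact hy.2.1.le
  set μ0 := (volume S0).toReal with hμ0'
  have hμ0p : 0 < μ0 := ENNReal.toReal_pos hμ0 hμt
  -- the scalings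
  set D : ℝ → (Fin n → ℝ) →ₗ[ℝ] (Fin n → ℝ) := fun c => LinearMap.id - (1 - c) • P with hD
  have hDa : ∀ c x, D c x = x - (1 - c) • P x := fun c x => rfl
  have hDD : ∀ c d x, D c (D d x) = D (c * d) x := by
    intro c d x
    rw [hDa, hDa, hDa, map_sub, map_smul, hP2]
    module
  have hD1 : ∀ x, D 1 x = x := by
    intro x
    rw [hDa]
    simp
  have hDg : ∀ c, ∀ v ∈ G, ∀ x, v ⬝ᵥ D c x = c * (v ⬝ᵥ x) := by
    intro c v hv x
    rw [hDa, dotProduct_sub, dotProduct_smul, hP1 v hv, smul_eq_mul]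
    ring
  set S : ℕ → Set (Fin n → ℝ) := fun k => (fun x => x + (-p)) ⁻¹' (D (2 ^ k) ⁻¹' S0) with hS
  have hSo : ∀ k, IsOpen (S k) := by
    intro k
    refine (hS0o.preimage (LinearMap.continuous_of_finiteDimensional _)).preimage ?_
    exact continuous_id.add continuous_const
  have hSμ : ∀ k, volume (S k) = ENNReal.ofReal ((((2 : ℝ) ^ k)⁻¹) ^ finrank ℝ G) *
      volume S0 := by
    intro k
    have hdet : LinearMap.det (D (2 ^ k)) = ((2 : ℝ) ^ k) ^ finrank ℝ G := hP3 _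
    rw [hS]
    simp only
    rw [measure_preimage_add_right, Measure.addHaar_preimage_linearMap _ (by
      rw [hdet]
      positivity), hdet, inv_pow, abs_of_pos (by positivity)]
  -- points of `S k`
  have hSk : ∀ k, ∀ x ∈ S k, ∃ y ∈ S0, x - p = D (((2 : ℝ) ^ k)⁻¹) y := by
    intro k x hx
    refine ⟨D (2 ^ k) (x + -p), hx, ?_⟩
    rw [hDD, inv_mul_cancel₀ (by positivity), hD1, sub_eq_add_neg]
  have hq0 : ∀ k : ℕ, (0 : ℝ) < ((2 : ℝ) ^ k)⁻¹ := fun k => by positivity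
  have hq1 : ∀ k : ℕ, ((2 : ℝ) ^ k)⁻¹ ≤ 1 := fun k =>
    inv_le_one_of_one_le₀ (one_le_pow₀ (by norm_num))
  have hSball : ∀ k, ∀ x ∈ S k, x ∈ closedBall p ρ' := by
    intro k x hx
    obtain ⟨y, hy, hxy⟩ := hSk k x hx
    rw [mem_closedBall, dist_eq_norm, hxy]
    have e : D (((2 : ℝ) ^ k)⁻¹) y = ((2 : ℝ) ^ k)⁻¹ • y + (1 - ((2 : ℝ) ^ k)⁻¹) • (y - P y) := by
      rw [hDa]
      module
    rw [e]
    refine (norm_add_le _ _).trans ?_
    rw [norm_smul, norm_smul, Real.norm_eq_abs, Real.norm_eq_abs, abs_of_pos (hq0 k),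
      abs_of_nonneg (by linarith [hq1 k])]
    have h1 := hy.2.1
    have h2 := hy.2.2.1
    have h3 := hq0 k
    have h4 := hq1 k
    nlinarith
  have hdot : ∀ k, ∀ x ∈ S k, ∃ y ∈ S0, ∀ j, bt α j ∈ G →
      bt α j ⬝ᵥ x = ((2 : ℝ) ^ k)⁻¹ * (bt α j ⬝ᵥ y) ∧ 0 < bt α j ⬝ᵥ y := by
    intro k x hx
    obtain ⟨y, hy, hxy⟩ := hSk k x hx
    refine ⟨y, hy, fun j hh => ⟨?_, ?_⟩⟩
    · rw [← hDg _ _ hh, ← hxy, dotProduct_sub, hp j hh, sub_zero]
    · have := hy.1 j
      rw [dotProduct_add, hp j hh, zero_add] at this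
      exact this
  have hSCh : ∀ k, ∀ x ∈ S k, x ∈ Ch (bt α) := by
    intro k x hx j
    by_cases hh : bt α j ∈ G
    · obtain ⟨y, hy, hxy⟩ := hdot k x hx
      rw [(hxy j hh).1]
      exact mul_pos (hq0 k) (hxy j hh).2
    · exact hb2 x (hSball k x hx) j hh
  -- the bound
  obtain ⟨B, hB1, hB⟩ : ∃ B : ℝ, 1 ≤ B ∧ ∀ j, ∀ x ∈ closedBall p ρ' ∪ closedBall 0 ρ',
      bt α j ⬝ᵥ x ≤ B := by
    have hc : Continuous fun (x : Fin n → ℝ) (j : ι ⊕ Fin n) => bt α j ⬝ᵥ x :=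
      continuous_pi fun h => dot_cont _
    obtain ⟨B, hB⟩ := (((isCompact_closedBall p ρ').union (isCompact_closedBall 0 ρ')).image
      hc).isBounded.exists_norm_le
    refine ⟨max B 1, le_max_right _ _, fun h x hx => ?_⟩
    have h2 := hB _ ⟨x, hx, rfl⟩
    have h3 := norm_le_pi_norm (fun j : ι ⊕ Fin n => bt α j ⬝ᵥ x) h
    rw [Real.norm_eq_abs] at h3
    exact (le_abs_self _).trans (h3.trans (h2.trans (le_max_left _ _)))
  set C := ∏ h : ι, B ^ m h with hC
  have hC0 : 0 < C := Finset.prod_pos fun h _ => pow_pos (by linarith) _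
  have hfS : ∀ k, ∀ y ∈ S k, ∏ h, (α h ⬝ᵥ y) ^ m h ≤ C * (((2 : ℝ) ^ k)⁻¹) ^ mu α m G := by
    intro k x hx
    obtain ⟨y, hy, hxy⟩ := hdot k x hx
    have e : (((2 : ℝ) ^ k)⁻¹) ^ mu α m G =
        ∏ h, if α h ∈ G then (((2 : ℝ) ^ k)⁻¹) ^ m h else 1 := by
      unfold mu
      rw [← Finset.prod_pow_eq_pow_sum]
      refine Finset.prod_congr rfl fun h _ => ?_
      split_ifs
      · rfl
      · rw [pow_zero]
    rw [e, hC, ← Finset.prod_mul_distrib]
    refine Finset.prod_le_prod (fun h _ => pow_nonneg (hSCh k x hx (Sum.inl h)).le _)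
      fun h _ => ?_
    by_cases hh : α h ∈ G
    · have h5 := hxy (Sum.inl h) hh
      change α h ⬝ᵥ x = ((2 : ℝ) ^ k)⁻¹ * (α h ⬝ᵥ y) ∧ 0 < α h ⬝ᵥ y at h5
      rw [if_pos hh, h5.1, mul_pow, mul_comm]
      refine mul_le_mul_of_nonneg_right (pow_le_pow_left₀ h5.2.le
        (hB (Sum.inl h) y (Or.inr ?_)) _) (by positivity)
      rw [mem_closedBall_zero_iff]
      exact hy.2.1.le
    · rw [if_neg hh, mul_one]
      exact pow_le_pow_left₀ (hSCh k x hx (Sum.inl h)).le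
        (hB (Sum.inl h) x (Or.inl (hSball k x hx))) _
  -- the Jacobian
  set C' := (PP a : ℝ) * ∏ i : Fin n, B ^ wa (a i) with hC'
  have hC'0 : 0 < C' := mul_pos ha'
    (Finset.prod_pos fun _ _ => Real.rpow_pos_of_pos (by linarith) _)
  have hjS : ∀ k, ∀ y ∈ S k, (PP a : ℝ) * ∏ i, (y i) ^ wa (a i) ≤
      C' * (((2 : ℝ) ^ k)⁻¹) ^ wc a G := by
    intro k x hx
    obtain ⟨y, hy, hxy⟩ := hdot k x hx
    have e : (((2 : ℝ) ^ k)⁻¹) ^ wc a G =
        ∏ i : Fin n, if (Pi.single i 1 : Fin n → ℝ) ∈ G then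
          (((2 : ℝ) ^ k)⁻¹) ^ wa (a i) else 1 := by
      unfold wc
      rw [Real.rpow_sum_of_pos (hq0 k)]
      refine Finset.prod_congr rfl fun i _ => ?_
      split_ifs
      · rfl
      · exact Real.rpow_zero _
    rw [e, hC', mul_assoc, ← Finset.prod_mul_distrib]
    refine mul_le_mul_of_nonneg_left ?_ ha'.le
    have hxi : ∀ i, 0 < x i := fun i => by
      have := hSCh k x hx (Sum.inr i)
      rwa [bt_inr] at this
    refine Finset.prod_le_prod (fun i _ => Real.rpow_nonneg (hxi i).le _) fun i _ => ?_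
    by_cases hh : (Pi.single i 1 : Fin n → ℝ) ∈ G
    · have h5 := hxy (Sum.inr i) hh
      rw [bt_inr, bt_inr] at h5
      rw [if_pos hh, h5.1, Real.mul_rpow (hq0 k).le h5.2.le, mul_comm]
      refine mul_le_mul_of_nonneg_right (Real.rpow_le_rpow h5.2.le ?_ (hw0 i))
        (Real.rpow_nonneg (hq0 k).le _)
      have h6 := hB (Sum.inr i) y (Or.inr (by
        rw [mem_closedBall_zero_iff]
        exact hy.2.1.le))
      rwa [bt_inr] at h6
    · rw [if_neg hh, mul_one]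
      refine Real.rpow_le_rpow (hxi i).le ?_ (hw0 i)
      have h6 := hB (Sum.inr i) x (Or.inl (hSball k x hx))
      rwa [bt_inr] at h6
  -- disjointness
  have hdisj : ∀ j k : ℕ, j < k → Disjoint (S j) (S k) := by
    intro j k hjk
    rw [Set.disjoint_left]
    intro x hxj hxk
    obtain ⟨y, hy, hy'⟩ := hdot j x hxj
    obtain ⟨z, hz, hz'⟩ := hdot k x hxk
    have h1 := (hy' g hg).1
    have h2 := (hz' g hg).1
    have h3 := hy.2.2.2.1
    have h4 := hz.2.2.2.2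
    have h5 : ((2 : ℝ) ^ k)⁻¹ * (2 * c) ≤ ((2 : ℝ) ^ j)⁻¹ * c := by
      obtain ⟨d, rfl⟩ : ∃ d, k = j + 1 + d := ⟨k - (j + 1), by omega⟩
      have h6 : ((2 : ℝ) ^ (j + 1 + d))⁻¹ * (2 * c) =
          ((2 : ℝ) ^ j)⁻¹ * c * ((2 : ℝ) ^ d)⁻¹ := by
        rw [pow_add, pow_add, mul_inv, mul_inv]
        ring
      rw [h6]
      exact mul_le_of_le_one_right (by positivity) (hq1 d)
    have h6 := mul_lt_mul_of_pos_left h3 (hq0 j)
    have h7 := mul_lt_mul_of_pos_left h4 (hq0 k)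
    linarith
  -- the sets in the space of `x`
  set X : ℕ → Set (Fin n → ℝ) := fun k => Pos n ∩ pw a ⁻¹' S k with hX
  have hXm : ∀ k, MeasurableSet (X k) := fun k =>
    (Pos_open.inter ((hSo k).preimage (pw_cont a))).measurableSet
  have hXpos : ∀ k, ∀ x ∈ X k, ∀ i, 0 < x i := by
    intro k x hx i
    exact hx.1 i
  have hXimg : ∀ k, pw a '' X k = S k := by
    intro k
    apply Subset.antisymm
    · rintro _ ⟨x, hx, rfl⟩
      exact hx.2
    · intro y hy
      have hyi : ∀ i, 0 < y i := fun i => by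
        have := hSCh k y hy (Sum.inr i)
        rwa [bt_inr] at this
      have h1 : pw a (rt a y) = y := pw_rt ha0 fun i => (hyi i).le
      refine ⟨rt a y, ⟨fun i => ?_, ?_⟩, h1⟩
      · exact Real.rpow_pos_of_pos (hyi i) _
      · show pw a (rt a y) ∈ S k
        rw [h1]
        exact hy
  have hXsub : ∀ k, X k ⊆ Ux α a ∩ (Pos n ∩ closedBall px (ρ / 2)) := by
    intro k x hx
    refine ⟨fun h => hSCh k _ hx.2 (Sum.inl h), hx.1, ?_⟩
    have h1 := hb1 _ (hSball k _ hx.2)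
    rwa [rt_pw ha0 fun i => (hXpos k x hx i).le] at h1
  have hXfin : ∀ k, volume (X k) ≠ ⊤ := fun k =>
    (lt_of_le_of_lt (measure_mono ((hXsub k).trans (inter_subset_right.trans inter_subset_right)))
      measure_closedBall_lt_top).ne
  have hXdisj : ∀ j k : ℕ, j < k → Disjoint (X j) (X k) := by
    intro j k hjk
    rw [Set.disjoint_left]
    intro x hxj hxk
    exact Set.disjoint_left.1 (hdisj j k hjk) hxj.2 hxk.2
  have hXvol : ∀ k, (((2 : ℝ) ^ k)⁻¹) ^ finrank ℝ G * μ0 / (C' * (((2 : ℝ) ^ k)⁻¹) ^ wc a G) ≤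
      (volume : Measure (Fin n → ℝ)).real (X k) := by
    intro k
    have hq := Real.rpow_pos_of_pos (hq0 k) (wc a G)
    have hCk : 0 < C' * (((2 : ℝ) ^ k)⁻¹) ^ wc a G := mul_pos hC'0 hq
    rw [div_le_iff₀ hCk]
    have h1 := lintegral_abs_det_fderiv_eq_addHaar_image volume (hXm k)
      (fun x _ => pw_deriv a x _) ((Pos_inj ha0).mono inter_subset_left)
    rw [hXimg, hSμ] at h1
    have h2 : ∫⁻ x in X k, ENNReal.ofReal |(dpw a x).det| ≤
        ENNReal.ofReal (C' * (((2 : ℝ) ^ k)⁻¹) ^ wc a G) * volume (X k) := by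
      rw [← setLIntegral_const]
      refine setLIntegral_mono measurable_const fun x hx => ?_
      refine ENNReal.ofReal_le_ofReal ?_
      rw [dpw_abs ha0 fun i => hXpos k x hx i]
      exact hjS k _ hx.2
    rw [h1] at h2
    have h3 := ENNReal.toReal_mono (ENNReal.mul_ne_top ENNReal.ofReal_ne_top (hXfin k)) h2
    rw [ENNReal.toReal_mul, ENNReal.toReal_mul, ENNReal.toReal_ofReal (by positivity),
      ENNReal.toReal_ofReal hCk.le] at h3
    rw [mul_comm ((volume : Measure (Fin n → ℝ)).real (X k))]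
    exact h3
  -- the lower bound
  set c1 := C ^ s0 * (μ0 / C') with hc1
  have hc1p : 0 < c1 := by positivity
  obtain ⟨K, hK⟩ := exists_nat_gt (R / c1)
  rw [div_lt_iff₀ hc1p] at hK
  set L : ℝ → ℝ := fun t => ∑ k ∈ Finset.range K,
    (C * (((2 : ℝ) ^ k)⁻¹) ^ mu α m G) ^ t *
      ((((2 : ℝ) ^ k)⁻¹) ^ finrank ℝ G * μ0 / (C' * (((2 : ℝ) ^ k)⁻¹) ^ wc a G)) with hL
  have hLc : Continuous L := by
    refine continuous_finsetSum _ fun k _ => ?_
    refine Continuous.mul ?_ continuous_const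
    exact Real.continuous_const_rpow (by positivity)
  have hLs : L s0 = K * c1 := by
    have h1 : ∀ k ∈ Finset.range K, (C * (((2 : ℝ) ^ k)⁻¹) ^ mu α m G) ^ s0 *
        ((((2 : ℝ) ^ k)⁻¹) ^ finrank ℝ G * μ0 / (C' * (((2 : ℝ) ^ k)⁻¹) ^ wc a G)) = c1 := by
      intro k _
      have h2 : ((((2 : ℝ) ^ k)⁻¹) ^ mu α m G) ^ s0 * (((2 : ℝ) ^ k)⁻¹) ^ finrank ℝ G =
          (((2 : ℝ) ^ k)⁻¹) ^ wc a G := by
        have hqk := hq0 k
        generalize ((2 : ℝ) ^ k)⁻¹ = q at hqk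
        rw [← Real.rpow_natCast q (mu α m G), ← Real.rpow_natCast q (finrank ℝ G),
          ← Real.rpow_mul hqk.le, ← Real.rpow_add hqk]
        congr 1
        rw [hs0, nuA_eq ha0]
        push_cast
        field_simp
        ring
      have hq' : (((2 : ℝ) ^ k)⁻¹) ^ wc a G ≠ 0 := (Real.rpow_pos_of_pos (hq0 k) _).ne'
      rw [Real.mul_rpow hC0.le (by positivity)]
      calc C ^ s0 * ((((2 : ℝ) ^ k)⁻¹) ^ mu α m G) ^ s0 * ((((2 : ℝ) ^ k)⁻¹) ^ finrank ℝ G * μ0 /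
            (C' * (((2 : ℝ) ^ k)⁻¹) ^ wc a G))
          = C ^ s0 * μ0 * (((((2 : ℝ) ^ k)⁻¹) ^ mu α m G) ^ s0 *
            (((2 : ℝ) ^ k)⁻¹) ^ finrank ℝ G) / (C' * (((2 : ℝ) ^ k)⁻¹) ^ wc a G) := by ring
        _ = c1 := by
            rw [h2, hc1]
            field_simp
    rw [hL]
    simp only
    rw [Finset.sum_congr rfl h1, Finset.sum_const, Finset.card_range, nsmul_eq_mul]
  have hev : ∀ᶠ t in 𝓝[>] s0, R < L t := by
    refine (hLc.tendsto s0).eventually (lt_mem_nhds (by rw [hLs]; exact hK)) |>.filter_mono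
      nhdsWithin_le_nhds
  have hneg : ∀ᶠ t in 𝓝[>] s0, t < 0 := (gt_mem_nhds hs00).filter_mono nhdsWithin_le_nhds
  refine Eventually.frequently ?_
  filter_upwards [hev, hneg, self_mem_nhdsWithin] with t ht ht0 hts
  refine ht.trans_le ?_
  have hI : IntegrableOn (fun x => rv (qf α m a) x ^ t)
      (Ux α a ∩ (Pos n ∩ closedBall px (ρ / 2))) :=
    (hint t hts).mono_set (inter_subset_inter_right _ (inter_subset_inter_right _
      (closedBall_subset_closedBall (by linarith))))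
  have h1 : L t ≤ ∑ k ∈ Finset.range K, ∫ x in X k, rv (qf α m a) x ^ t := by
    refine Finset.sum_le_sum fun k _ => ?_
    refine (mul_le_mul_of_nonneg_left (hXvol k) (Real.rpow_nonneg (by positivity) _)).trans ?_
    refine setIntegral_ge_of_const_le_real (hXm k) (hXfin k) (fun x hx => ?_)
      (hI.mono_set (hXsub k))
    have hpos : 0 < rv (qf α m a) x := by
      rw [rv_qf]
      exact Finset.prod_pos fun h _ => pow_pos ((hXsub k hx).1 h) _
    refine Real.rpow_le_rpow_of_nonpos hpos ?_ ht0.le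
    rw [rv_qf]
    exact hfS k _ hx.2
  refine h1.trans ?_
  rw [← integral_biUnion_finset _ (fun k _ => hXm k) ?_ fun k _ => hI.mono_set (hXsub k)]
  · refine setIntegral_mono_set hI ?_ ?_
    · refine (ae_restrict_iff' ((Ux_open α a).measurableSet.inter
        (Pos_open.measurableSet.inter measurableSet_closedBall))).2
        (Eventually.of_forall fun x hx => ?_)
      refine Real.rpow_nonneg ?_ _
      rw [rv_qf]
      exact Finset.prod_nonneg fun h _ => pow_nonneg (hx.1 h).le _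
    · refine LE.le.eventuallyLE ?_
      exact iUnion₂_subset fun k _ => hXsub k
  · intro j _ k _ hjk
    rcases lt_or_gt_of_ne hjk with h | h
    · exact hXdisj j k h
    · exact (hXdisj k j h).symm

end Pool.Agent.T6.H16.RW
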