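import Pool.Agent.T6.H16.RW.H4

set_option autoImplicit false

/-! The criterion for products of diagonal forms; diagonal changes of coordinates. -/

namespace Pool.Agent.T6.H16.RW

open Pool.Agent.T6.H16.RA

open MvPolynomial MeasureTheory Set Metric Module Filter Topology
open Pool.Agent.H628R4.TP (weylS IsBFunction)

variable {n : ℕ} {ι : Type} [Fintype ι] [DecidableEq ι]

/-- the sectors which belong to the roots of unity -/
def zr (a : Fin n → ℕ) (k : ∀ i, rootsOfUnity (a i) ℂ) : Fin n → ℂ := fun i => ((k i : ℂˣ) : ℂ)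

lemma zr_pow (a : Fin n → ℕ) (k : ∀ i, rootsOfUnity (a i) ℂ) (i : Fin n) :
    zr a k i ^ a i = 1 := by
  unfold zr
  have h1 := (k i).2
  rw [mem_rootsOfUnity] at h1
  rw [← Units.val_pow_eq_pow_val, h1, Units.val_one]

lemma sec_roots {a : Fin n → ℕ} (ha : ∀ i, 2 ≤ a i) : Sec a (zr a) := by
  refine ⟨zr_pow a, fun i => ?_⟩
  have hai := ha i
  have hne : NeZero (a i) := ⟨by omega⟩
  have hp := Complex.isPrimitiveRoot_exp (a i) (by omega)
  set u : rootsOfUnity (a i) ℂ := hp.toRootsOfUnity with hu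
  have hu1 : (((u : rootsOfUnity (a i) ℂ) : ℂˣ) : ℂ) =
      Complex.exp (2 * Real.pi * Complex.I / (a i : ℕ)) := rfl
  refine ⟨Equiv.mulLeft (Pi.mulSingle i u), _, hp.ne_one (by omega), fun k => ?_,
    fun k j hj => ?_⟩
  · show ((((Pi.mulSingle i u : ∀ i, rootsOfUnity (a i) ℂ) * k) i : ℂˣ) : ℂ) =
      _ * ((k i : ℂˣ) : ℂ)
    rw [Pi.mul_apply, Pi.mulSingle_eq_same, ← hu1]
    rfl
  · show ((((Pi.mulSingle i u : ∀ i, rootsOfUnity (a i) ℂ) * k) j : ℂˣ) : ℂ) = ((k j : ℂˣ) : ℂ)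
    rw [Pi.mul_apply, Pi.mulSingle_eq_of_ne hj, one_mul]

lemma inv_qf (α : ι → Fin n → ℝ) (m : ι → ℕ) (a : Fin n → ℕ) : Inv (zr a) (qf α m a) := by
  intro k
  have h1 : ∀ v : Fin n → ℝ, sc (zr a k) (cx (dform a v)) = cx (dform a v) := by
    intro v
    unfold cx dform
    rw [map_sum, map_sum]
    refine Finset.sum_congr rfl fun i _ => ?_
    simp only [map_mul, map_pow, map_C, map_X, sc_C, sc_X, mul_pow]
    rw [← map_pow, zr_pow, map_one, one_mul]
  have h2 : cx (qf α m a) = ∏ h, cx (dform a (α h)) ^ m h := by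
    unfold cx qf
    rw [map_prod]
    simp only [map_pow]
  rw [h2, map_prod]
  simp only [map_pow, h1]

/-- the criterion, if all signs are positive -/
theorem crit_pos {α : ι → Fin n → ℝ} {m : ι → ℕ} {a : Fin n → ℕ} (ha : ∀ i, 2 ≤ a i) (ha0 : ∀ i, 0 < a i)
    (hα : ∀ h, α h ≠ 0) (hm : ∀ h, 0 < m h) {G : Submodule ℝ (Fin n → ℝ)}
    (hG : IsFlat (bt α) G) (hM : 0 < mu α m G) {p : Fin n → ℝ} (hp : ∀ v ∈ G, v ⬝ᵥ p = 0)
    (hpp : ∀ j, bt α j ∉ G → 0 < bt α j ⬝ᵥ p) {x₀ : Fin n → ℝ}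
    (hx₀ : ∀ j, bt α j ∈ G → 0 < bt α j ⬝ᵥ x₀)
    (hgood : ∀ x : Fin n → ℝ, (∀ j, bt α j ∈ G → 0 ≤ bt α j ⬝ᵥ x) → atp (bt α) G x ≠ G →
      nuA a G * mu α m (atp (bt α) G x) ≤ mu α m G * nuA a (atp (bt α) G x))
    {b : Polynomial ℂ} (hb : IsBFunction (cx (qf α m a)) b) :
    b.eval (((-(nuA a G : ℝ) / (PP a * mu α m G : ℕ) : ℝ)) : ℂ) = 0 := by
  classical
  have hp0 : ∀ j, bt α j ∈ G → bt α j ⬝ᵥ p = 0 := fun j hj => hp _ hj
  have hpi : ∀ i, 0 ≤ p i := by
    intro i
    rw [← bt_inr α i p]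
    by_cases hh : bt α (Sum.inr i) ∈ G
    · rw [hp0 _ hh]
    · exact (hpp _ hh).le
  -- the chamber is not empty
  have hne : (Ch (bt α)).Nonempty := by
    have h1 : ∀ᶠ δ : ℝ in 𝓝[>] 0, ∀ j, bt α j ∉ G → 0 < bt α j ⬝ᵥ (p + δ • x₀) := by
      rw [eventually_all]
      intro j
      by_cases hh : bt α j ∈ G
      · exact Eventually.of_forall fun δ h2 => absurd hh h2
      · have hc : Continuous fun δ : ℝ => bt α j ⬝ᵥ (p + δ • x₀) :=
          (dot_cont (bt α j)).comp (continuous_const.add (continuous_id.smul continuous_const))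
        have h2 : 0 < bt α j ⬝ᵥ (p + (0 : ℝ) • x₀) := by
          rw [zero_smul, add_zero]
          exact hpp j hh
        have h3 := (hc.tendsto 0).eventually (lt_mem_nhds h2)
        exact (h3.filter_mono nhdsWithin_le_nhds).mono fun δ h4 _ => h4
    obtain ⟨δ, hδ1, hδ2⟩ := (h1.and self_mem_nhdsWithin).exists
    refine ⟨p + δ • x₀, fun j => ?_⟩
    by_cases hh : bt α j ∈ G
    · rw [dotProduct_add, hp0 j hh, zero_add, dotProduct_smul]
      exact smul_pos hδ2 (hx₀ j hh)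
    · exact hδ1 j hh
  set px := rt a p with hpx
  have hpw : pw a px = p := pw_rt ha0 hpi
  have hpx0 : ∀ i, 0 ≤ px i := fun i => Real.rpow_nonneg (hpi i) _
  -- the constants
  obtain ⟨c0, hc1, hc0⟩ : ∃ c0 : ℝ, (∀ j, bt α j ∉ G → c0 < bt α j ⬝ᵥ p) ∧ 0 < c0 := by
    have h1 : ∀ᶠ c : ℝ in 𝓝[>] 0, ∀ j, bt α j ∉ G → c < bt α j ⬝ᵥ p := by
      rw [eventually_all]
      intro j
      by_cases hh : bt α j ∈ G
      · exact Eventually.of_forall fun δ h2 => absurd hh h2
      · exact ((gt_mem_nhds (hpp j hh)).filter_mono nhdsWithin_le_nhds).mono fun c h4 _ => h4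
    exact (h1.and self_mem_nhdsWithin).exists
  obtain ⟨ρ, hρ, hout⟩ : ∃ ρ : ℝ, 0 < ρ ∧ ∀ x ∈ closedBall px ρ, ∀ j, bt α j ∉ G →
      c0 < bt α j ⬝ᵥ pw a x := by
    have h1 : ∀ᶠ x in 𝓝 px, ∀ j, bt α j ∉ G → c0 < bt α j ⬝ᵥ pw a x := by
      rw [eventually_all]
      intro j
      by_cases hh : bt α j ∈ G
      · exact Eventually.of_forall fun δ h2 => absurd hh h2
      · have hc : Continuous fun x : Fin n → ℝ => bt α j ⬝ᵥ pw a x :=
          (dot_cont (bt α j)).comp (pw_cont a)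
        have h2 : c0 < bt α j ⬝ᵥ pw a px := by
          rw [hpw]
          exact hc1 j hh
        exact ((hc.tendsto px).eventually (lt_mem_nhds h2)).mono fun c h4 _ => h4
    exact (nhds_basis_closedBall.eventually_iff.1 h1)
  have hout' : ∀ j, bt α j ∉ G → ∀ x ∈ closedBall px ρ, c0 ≤ bt α j ⬝ᵥ pw a x := fun j hh x hx =>
    (hout x hx j hh).le
  have hgood' : ∀ (k : ℕ) (b : Fin k → ι ⊕ Fin n), (∀ i, bt α (b i) ∈ G) → 0 < k →
      spn (bt α) b ≠ G → LinearIndependent ℝ (fun i => bt α (b i)) →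
      nuA a G * mu α m (spn (bt α) b) ≤ mu α m G * nuA a (spn (bt α) b) ∨
        Cert (bt α) G (spn (bt α) b) := by
    intro k b hbG hk hne' hI
    rcases face_or_cert (bt α) G (spn (bt α) b) with ⟨x, hx1, hx2⟩ | h1
    · left
      have hat : atp (bt α) G x = spn (bt α) b := by
        apply le_antisymm
        · unfold atp
          rw [Submodule.span_le]
          rintro _ ⟨h1, h2, j, rfl⟩
          by_contra h3
          have h4 := hx2 j h1 h3
          rw [h2] at h4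
          exact lt_irrefl _ h4
        · have h6 : ∀ i, bt α (b i) ∈ atp (bt α) G x := fun i =>
            Submodule.subset_span ⟨hbG i, hx1 _ (Submodule.subset_span ⟨i, rfl⟩), b i, rfl⟩
          conv_lhs => unfold spn
          rw [Submodule.span_le]
          rintro _ ⟨i, rfl⟩
          exact h6 i
      have h8 := hgood x (fun j hh => ?_) (by rw [hat]; exact hne')
      · rwa [hat] at h8
      · by_cases h10 : bt α j ∈ spn (bt α) b
        · rw [hx1 _ h10]
        · exact (hx2 j hh h10).le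
    · exact Or.inr h1
  have hreg := reg_qf α a hm
  have hUne : (Ux α a).Nonempty := by
    obtain ⟨y, hy⟩ := hne
    have hyi : ∀ i, 0 ≤ y i := fun i => by
      have := hy (Sum.inr i)
      rw [bt_inr] at this
      exact this.le
    refine ⟨rt a y, fun h => ?_⟩
    rw [pw_rt ha0 hyi]
    exact hy (Sum.inl h)
  have hf0 : cx (qf α m a) ≠ 0 := by
    intro h0
    obtain ⟨x, hx⟩ := hUne
    have h1 := hreg.pos x hx
    have h2 := ev_cx (qf α m a) x
    rw [h0, map_zero] at h2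
    have h3 : rv (qf α m a) x = 0 := by exact_mod_cast h2.symm
    linarith
  have ha' : (0 : ℝ) < PP a := by exact_mod_cast PP_pos ha0
  have hM' : (0 : ℝ) < mu α m G := by exact_mod_cast hM
  have hr : 0 < finrank ℝ G := by
    rcases Nat.eq_zero_or_pos (finrank ℝ G) with h1 | h1
    · rw [Submodule.finrank_eq_zero.1 h1, mu_bot hα] at hM
      exact absurd hM (lt_irrefl _)
    · exact h1
  have hnu : (0 : ℝ) < nuA a G := by
    rw [nuA_eq ha0]
    refine mul_pos ha' ?_
    have h1 := wc_le ha0 G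
    have h2 : (cc G : ℝ) ≤ finrank ℝ G := by exact_mod_cast cc_le G
    have h3 := mul_le_mul_of_nonneg_left h2 (wa_nonneg (PP_pos ha0))
    have h4 : wa (PP a) * finrank ℝ G < 1 * finrank ℝ G :=
      mul_lt_mul_of_pos_right (wa_lt (PP_pos ha0)) (by exact_mod_cast hr)
    linarith
  have hs00 : -(nuA a G : ℝ) / (PP a * mu α m G : ℕ) < 0 := by
    refine div_neg_of_neg_of_pos ?_ ?_
    · linarith
    · push_cast
      positivity
  have hint : ∀ s, -(nuA a G : ℝ) / (PP a * mu α m G : ℕ) < s →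
      IntegrableOn (fun x => rv (qf α m a) x ^ s) (Ux α a ∩ (Pos n ∩ closedBall px ρ)) :=
    fun s hs => int_pow_good ha0 hα hG hM hgood' hc0 hout' hs
  have hne0 : ∀ i, NeZero (a i) := fun i => ⟨(ha0 i).ne'⟩
  letI : Fintype (∀ i, rootsOfUnity (a i) ℂ) := Fintype.ofFinite _
  refine rootS (κ := ∀ i, rootsOfUnity (a i) ℂ) hreg (inv_qf α m a) ha0 (sec_roots ha) hf0 hb
    hpx0 hpw hρ hint fun ρ' hρ' hle => ?_
  exact div_pow_of ha0 hM hpx0 hpw hρ' hp0 hc0
    (fun j hj x hx => hout' j hj x (closedBall_subset_closedBall hle hx)) hne rfl hs00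
    fun s hs => (hint s hs).mono_set (inter_subset_inter_right _ (inter_subset_inter_right _
      (closedBall_subset_closedBall hle)))

/-! ### diagonal changes of coordinates -/

lemma sc_sc {z w : Fin n → ℂ} (h : ∀ i, z i * w i = 1) (p : MvPolynomial (Fin n) ℂ) :
    sc z (sc w p) = p := by
  have h1 : (sc z).comp (sc w) = AlgHom.id ℂ _ := by
    refine MvPolynomial.algHom_ext fun i => ?_
    rw [AlgHom.comp_apply, sc_X, map_mul, sc_C, sc_X, AlgHom.id_apply, ← mul_assoc, ← map_mul,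
      mul_comm (w i), h i, map_one, one_mul]
  exact congrArg (fun φ => φ p) h1

/-- the conjugate operator -/
noncomputable def cj (z w : Fin n → ℂ) (Q : Module.End ℂ (MvPolynomial (Fin n) ℂ)) :
    Module.End ℂ (MvPolynomial (Fin n) ℂ) :=
  (sc z).toLinearMap ∘ₗ Q ∘ₗ (sc w).toLinearMap

lemma cj_apply (z w : Fin n → ℂ) (Q : Module.End ℂ (MvPolynomial (Fin n) ℂ))
    (p : MvPolynomial (Fin n) ℂ) : cj z w Q p = sc z (Q (sc w p)) := rfl

lemma cj_mem {z w : Fin n → ℂ} (h : ∀ i, z i * w i = 1)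
    {Q : Module.End ℂ (MvPolynomial (Fin n) ℂ)} (hQ : Q ∈ weylS (Fin n)) :
    cj z w Q ∈ weylS (Fin n) := by
  have hX : ∀ i, (LinearMap.mulLeft ℂ (X i : MvPolynomial (Fin n) ℂ)) ∈ weylS (Fin n) := fun i =>
    Algebra.subset_adjoin (Or.inl ⟨i, rfl⟩)
  have hD : ∀ i, ((pderiv i : Derivation ℂ (MvPolynomial (Fin n) ℂ)
      (MvPolynomial (Fin n) ℂ)) : MvPolynomial (Fin n) ℂ →ₗ[ℂ] MvPolynomial (Fin n) ℂ) ∈
      weylS (Fin n) := fun i => Algebra.subset_adjoin (Or.inr ⟨i, rfl⟩)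
  unfold weylS at hQ
  induction hQ using Algebra.adjoin_induction with
  | mem x hx =>
    rcases hx with ⟨i, rfl⟩ | ⟨i, rfl⟩
    · have e : cj z w (LinearMap.mulLeft ℂ (X i : MvPolynomial (Fin n) ℂ)) =
          z i • LinearMap.mulLeft ℂ (X i : MvPolynomial (Fin n) ℂ) := by
        refine LinearMap.ext fun p => ?_
        rw [cj_apply, LinearMap.mulLeft_apply, map_mul, sc_X, sc_sc h, LinearMap.smul_apply,
          LinearMap.mulLeft_apply, mul_assoc, C_mul']
      rw [e]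
      exact Subalgebra.smul_mem _ (hX i) _
    · have e : cj z w ((pderiv i : Derivation ℂ (MvPolynomial (Fin n) ℂ)
          (MvPolynomial (Fin n) ℂ)) : MvPolynomial (Fin n) ℂ →ₗ[ℂ] MvPolynomial (Fin n) ℂ) =
          w i • ((pderiv i : Derivation ℂ (MvPolynomial (Fin n) ℂ)
          (MvPolynomial (Fin n) ℂ)) : MvPolynomial (Fin n) ℂ →ₗ[ℂ] MvPolynomial (Fin n) ℂ) := by
        refine LinearMap.ext fun p => ?_
        rw [cj_apply, LinearMap.smul_apply]
        change sc z (pderiv i (sc w p)) = w i • pderiv i p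
        rw [pderiv_sc, map_mul, sc_C, sc_sc h, C_mul']
      rw [e]
      exact Subalgebra.smul_mem _ (hD i) _
  | algebraMap r =>
    have e : cj z w (algebraMap ℂ _ r) = algebraMap ℂ _ r := by
      refine LinearMap.ext fun p => ?_
      rw [cj_apply, Module.algebraMap_end_apply, Module.algebraMap_end_apply, map_smul, sc_sc h]
    rw [e]
    exact Subalgebra.algebraMap_mem _ _
  | add x y _ _ hx hy =>
    have e : cj z w (x + y) = cj z w x + cj z w y := by
      refine LinearMap.ext fun p => ?_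
      rw [LinearMap.add_apply, cj_apply, cj_apply, cj_apply, LinearMap.add_apply, map_add]
    rw [e]
    exact Subalgebra.add_mem _ hx hy
  | mul x y _ _ hx hy =>
    have e : cj z w (x * y) = cj z w x * cj z w y := by
      refine LinearMap.ext fun p => ?_
      rw [Module.End.mul_apply, cj_apply, cj_apply, cj_apply, Module.End.mul_apply,
        sc_sc (z := w) (w := z) fun i => by rw [mul_comm]; exact h i]
    rw [e]
    exact Subalgebra.mul_mem _ hx hy

/-- functional equations after a diagonal change of coordinates -/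
theorem isBFunction_sc {f : MvPolynomial (Fin n) ℂ} {b : Polynomial ℂ} (hb : IsBFunction f b)
    {z : Fin n → ℂ} (hz : ∀ i, z i ≠ 0) : IsBFunction (sc z f) b := by
  have hzw : ∀ i, z i * (z i)⁻¹ = 1 := fun i => mul_inv_cancel₀ (hz i)
  obtain ⟨P, hP⟩ := hb
  refine ⟨P.mapRange (fun Q : weylS (Fin n) => (⟨cj z (fun i => (z i)⁻¹) Q.1,
    cj_mem hzw Q.2⟩ : weylS (Fin n))) ?_, fun s => ?_⟩
  · refine Subtype.ext ?_
    refine LinearMap.ext fun p => ?_
    change sc z ((0 : Module.End ℂ (MvPolynomial (Fin n) ℂ)) (sc (fun i => (z i)⁻¹) p)) = 0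
    rw [LinearMap.zero_apply, map_zero]
  · rw [Finsupp.sum_mapRange_index (fun m => by simp)]
    have h1 := congrArg (sc z) (hP s)
    rw [map_mul, sc_C, map_pow, Finsupp.sum, map_sum] at h1
    rw [h1, Finsupp.sum]
    refine Finset.sum_congr rfl fun k _ => ?_
    rw [map_smul]
    congr 1
    have h2 : sc (fun i => (z i)⁻¹) (sc z f ^ (s + 1)) = f ^ (s + 1) := by
      rw [← map_pow, sc_sc (z := fun i => (z i)⁻¹) (w := z) fun i => by
        rw [mul_comm]
        exact hzw i]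
    change _ = sc z ((P k : Module.End ℂ (MvPolynomial (Fin n) ℂ))
      (sc (fun i => (z i)⁻¹) (sc z f ^ (s + 1))))
    rw [h2]

end Pool.Agent.T6.H16.RW
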