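import Pool.Agent.W574.HS.Flat

set_option autoImplicit false

/-! For a weighted homogeneous polynomial, local functional equations at the origin are global. -/

namespace Pool.Agent.T6.H16.RW

open MvPolynomial Pool.Agent.W574.HS Pool.Agent.H628R4.TP

variable {n : ℕ} {w : Fin n → ℤ}

/-- an operator of weight `k` -/
def HasWt (w : Fin n → ℤ) (Q : Module.End ℂ (MvPolynomial (Fin n) ℂ)) (k : ℤ) : Prop :=
  ∀ (e : ℤ) (p : MvPolynomial (Fin n) ℂ), p.IsWeightedHomogeneous w e →
    (Q p).IsWeightedHomogeneous w (e + k)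

theorem HasWt.mul {Q Q' : Module.End ℂ (MvPolynomial (Fin n) ℂ)} {k k' : ℤ} (h : HasWt w Q k)
    (h' : HasWt w Q' k') : HasWt w (Q * Q') (k + k') := by
  intro e p hp
  rw [Module.End.mul_apply]
  have h1 := h _ _ (h' e p hp)
  rwa [show e + k' + k = e + (k + k') by ring] at h1

theorem exists_wt {Q : Module.End ℂ (MvPolynomial (Fin n) ℂ)}
    (hQ : Q ∈ Submonoid.closure (Set.range (fun i => LinearMap.mulLeft ℂ
      (X i : MvPolynomial (Fin n) ℂ)) ∪ Set.range (fun i => ((pderiv i : Derivation ℂ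
        (MvPolynomial (Fin n) ℂ) (MvPolynomial (Fin n) ℂ)) :
        MvPolynomial (Fin n) ℂ →ₗ[ℂ] MvPolynomial (Fin n) ℂ)))) :
    ∃ k : ℤ, HasWt w Q k := by
  induction hQ using Submonoid.closure_induction with
  | mem x hx =>
    rcases hx with ⟨i, rfl⟩ | ⟨i, rfl⟩
    · refine ⟨w i, fun e p hp => ?_⟩
      rw [LinearMap.mulLeft_apply, add_comm]
      exact (isWeightedHomogeneous_X ℂ w i).mul hp
    · refine ⟨-w i, fun e p hp => ?_⟩
      exact hp.pderiv (by ring)
  | one =>
    refine ⟨0, fun e p hp => ?_⟩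
    rw [add_zero, Module.End.one_apply]
    exact hp
  | mul x y _ _ hx hy =>
    obtain ⟨k, hk⟩ := hx
    obtain ⟨l, hl⟩ := hy
    exact ⟨k + l, hk.mul hl⟩

/-- the component of weight `k` of an operator -/
theorem exists_comp (w : Fin n → ℤ) (Q : Module.End ℂ (MvPolynomial (Fin n) ℂ))
    (hQ : Q ∈ weylS (Fin n)) (k : ℤ) :
    ∃ R ∈ weylS (Fin n), ∀ (e : ℤ) (p : MvPolynomial (Fin n) ℂ), p.IsWeightedHomogeneous w e →
      weightedHomogeneousComponent w (e + k) (Q p) = R p := by
  have hQ' := hQ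
  rw [weylS, ← Subalgebra.mem_toSubmodule, Algebra.adjoin_eq_span] at hQ'
  induction hQ' using Submodule.span_induction with
  | mem x hx =>
    obtain ⟨l, hl⟩ := exists_wt (w := w) hx
    have hx' : x ∈ weylS (Fin n) := by
      rw [weylS, ← Subalgebra.mem_toSubmodule, Algebra.adjoin_eq_span]
      exact Submodule.subset_span hx
    by_cases hkl : k = l
    · subst hkl
      exact ⟨x, hx', fun e p hp => weightedHomogeneousComponent_eq_self (hl e p hp)⟩
    · refine ⟨0, Subalgebra.zero_mem _, fun e p hp => ?_⟩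
      rw [LinearMap.zero_apply]
      refine (hl e p hp).weightedHomogeneousComponent_ne _ fun h => ?_
      apply hkl
      linarith
  | zero => exact ⟨0, Subalgebra.zero_mem _, fun e p hp => by simp⟩
  | add x y hx hy ihx ihy =>
    have hx' : x ∈ weylS (Fin n) := by
      rw [weylS, ← Subalgebra.mem_toSubmodule, Algebra.adjoin_eq_span]
      exact hx
    have hy' : y ∈ weylS (Fin n) := by
      rw [weylS, ← Subalgebra.mem_toSubmodule, Algebra.adjoin_eq_span]
      exact hy
    obtain ⟨R, hR, h1⟩ := ihx hx'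
    obtain ⟨R', hR', h2⟩ := ihy hy'
    refine ⟨R + R', Subalgebra.add_mem _ hR hR', fun e p hp => ?_⟩
    rw [LinearMap.add_apply, map_add, h1 e p hp, h2 e p hp, LinearMap.add_apply]
  | smul a x hx ihx =>
    have hx' : x ∈ weylS (Fin n) := by
      rw [weylS, ← Subalgebra.mem_toSubmodule, Algebra.adjoin_eq_span]
      exact hx
    obtain ⟨R, hR, h1⟩ := ihx hx'
    refine ⟨a • R, Subalgebra.smul_mem _ hR a, fun e p hp => ?_⟩
    rw [LinearMap.smul_apply, map_smul, h1 e p hp, LinearMap.smul_apply]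

lemma weight_zero (hw : ∀ i, 0 < w i) {d : Fin n →₀ ℕ} (h : Finsupp.weight w d = 0) : d = 0 := by
  by_contra hd
  rw [Finsupp.weight_apply, Finsupp.sum] at h
  have h1 : ∀ i ∈ d.support, 0 < d i • w i := fun i hi => by
    have h2 : 0 < d i := Nat.pos_of_ne_zero (Finsupp.mem_support_iff.1 hi)
    rw [nsmul_eq_mul]
    exact mul_pos (by exact_mod_cast h2) (hw i)
  have h2 := Finset.sum_pos h1 (Finsupp.support_nonempty_iff.2 hd)
  exact absurd h h2.ne'

theorem comp_mul (hw : ∀ i, 0 < w i) (H G : MvPolynomial (Fin n) ℂ) (e : ℤ)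
    (hG : G.IsWeightedHomogeneous w e) :
    weightedHomogeneousComponent w e (H * G) = C (constantCoeff H) * G := by
  classical
  ext d
  rw [coeff_weightedHomogeneousComponent, coeff_C_mul]
  split_ifs with hd
  · rw [coeff_mul, Finset.sum_eq_single (0, d)]
    · rfl
    · rintro ⟨d1, d2⟩ h1 h2
      by_cases h3 : coeff d2 G = 0
      · simp only [h3, mul_zero]
      · exfalso
        apply h2
        have h4 := hG h3
        rw [Finset.HasAntidiagonal.mem_antidiagonal] at h1
        simp only at h1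
        have h5 : Finsupp.weight w d1 = 0 := by
          have h6 := congrArg (Finsupp.weight w) h1
          rw [map_add, h4, hd] at h6
          linarith
        have h7 := weight_zero hw h5
        rw [h7, zero_add] at h1
        rw [h7, h1]
    · intro h1
      exact absurd (Finset.HasAntidiagonal.mem_antidiagonal.2 (zero_add d)) h1
  · rw [hG.coeff_eq_zero d hd, mul_zero]

/-- **For a weighted homogeneous polynomial, local functional equations at the origin are
global.** -/
theorem global_of_localW (hw : ∀ i, 0 < w i) (F : MvPolynomial (Fin n) ℂ) (hF : F ≠ 0) (D : ℤ)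
    (hD : F.IsWeightedHomogeneous w D) (b : Polynomial ℂ) (hb : IsLocalBFunction F b) :
    IsBFunction F b := by
  classical
  obtain ⟨H, P, hH, hP⟩ := algebraic_of_local F hF b hb
  choose R hR1 hR2 using fun m : ℕ => exists_comp w (P m).1 (P m).2 (-D)
  set h0 : ℂ := constantCoeff H with hh0
  refine ⟨Finsupp.onFinset P.support (fun m => if m ∈ P.support then
    (h0⁻¹ • ⟨R m, hR1 m⟩ : weylS (Fin n)) else 0) (fun m hm => by
      by_contra h
      exact hm (if_neg h)), fun s => ?_⟩
  have h1 := congrArg (weightedHomogeneousComponent w ((s : ℤ) * D)) (hP s)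
  have hFs : (C (b.eval (s : ℂ)) * F ^ s).IsWeightedHomogeneous w ((s : ℤ) * D) := by
    have := (hD.pow s).C_mul (b.eval (s : ℂ))
    rwa [nsmul_eq_mul] at this
  rw [comp_mul hw H _ _ hFs, Finsupp.sum, map_sum] at h1
  have h2 : ∀ m ∈ P.support, weightedHomogeneousComponent w ((s : ℤ) * D)
      (((s : ℂ) ^ m) • (P m : Module.End ℂ (MvPolynomial (Fin n) ℂ)) (F ^ (s + 1)))
      = ((s : ℂ) ^ m) • R m (F ^ (s + 1)) := by
    intro m _
    have h3 := hR2 m _ _ (hD.pow (s + 1))
    rw [nsmul_eq_mul, show (((s + 1 : ℕ) : ℤ) * D + -D) = (s : ℤ) * D by push_cast; ring] at h3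
    rw [map_smul, h3]
  rw [Finset.sum_congr rfl h2] at h1
  rw [Finsupp.onFinset_sum]
  · have h3 : C (b.eval (s : ℂ)) * F ^ s = C h0⁻¹ * (C h0 * (C (b.eval (s : ℂ)) * F ^ s)) := by
      rw [← mul_assoc, ← map_mul, inv_mul_cancel₀ hH, map_one, one_mul]
    rw [h3, h1, Finset.mul_sum]
    refine Finset.sum_congr rfl fun m hm => ?_
    rw [if_pos hm]
    change C h0⁻¹ * (((s : ℂ) ^ m) • R m (F ^ (s + 1))) =
      ((s : ℂ) ^ m) • ((h0⁻¹ • R m) (F ^ (s + 1)))
    rw [LinearMap.smul_apply, C_mul', smul_comm]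
  · intro m
    simp

end Pool.Agent.T6.H16.RW
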