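import Pool.Agent.T6.H16.RW.E1
import Pool.Agent.T6.H16.RW.WH
import Pool.Agent.TH192.DT.TopZ

set_option autoImplicit false

/-! The poles. -/

namespace Pool.Agent.T6.H16.RW

open Pool.Agent.T6.H16.RA

open MvPolynomial Module
open Pool.Agent.H628R4.TP (IsBFunction IsLocalBFunction)
open Pool.Agent.TH192.DT (topZ pole_topZ)

variable {n : ℕ} {ι : Type} [Fintype ι]

/-- `f = ∏ h, (∑ i, c_{h,i} x_i ^ (a_i)) ^ m_h` -/
noncomputable def diagProd (c : ι → Fin n → ℝ) (m : ι → ℕ) (a : Fin n → ℕ) :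
    MvPolynomial (Fin n) ℂ :=
  ∏ h, (∑ i, C (c h i : ℂ) * X i ^ a i) ^ m h

/-- the least common multiple of the exponents `a_i` of the coordinates in `G` -/
noncomputable def el (a : Fin n → ℕ) (G : Submodule ℝ (Fin n → ℝ)) : ℕ :=
  open Classical in (Finset.univ.filter fun i : Fin n => (Pi.single i 1 : Fin n → ℝ) ∈ G).lcm a

/-- `ν` for the component which belongs to the flat `G` -/
noncomputable def nuG (a : Fin n → ℕ) (G : Submodule ℝ (Fin n → ℝ)) : ℕ :=
  open Classical in el a G * (finrank ℝ G - cc G) +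
    ∑ i, if (Pi.single i 1 : Fin n → ℝ) ∈ G then el a G / a i else 0

/-- `N` for the component which belongs to the flat `G` -/
noncomputable def nG (c : ι → Fin n → ℝ) (m : ι → ℕ) (a : Fin n → ℕ)
    (G : Submodule ℝ (Fin n → ℝ)) : ℕ := el a G * mu c m G

lemma el_pos {a : Fin n → ℕ} (ha : ∀ i, 0 < a i) (G : Submodule ℝ (Fin n → ℝ)) : 0 < el a G := by
  classical
  unfold el
  refine Nat.pos_of_ne_zero fun h => ?_
  rw [Finset.lcm_eq_zero_iff] at h
  obtain ⟨i, -, hi⟩ := h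
  exact absurd hi (ha i).ne'

/-- the two scalings of the weighted rank -/
lemma nuG_eq {a : Fin n → ℕ} (ha : ∀ i, 0 < a i) (G : Submodule ℝ (Fin n → ℝ)) :
    (PP a : ℝ) * nuG a G = el a G * nuA a G := by
  classical
  have hP : (0 : ℝ) < PP a := by exact_mod_cast PP_pos ha
  have h1 : ((∑ i, if (Pi.single i 1 : Fin n → ℝ) ∈ G then el a G / a i else 0 : ℕ) : ℝ) =
      el a G * (cc G - wc a G) := by
    have h2 : (cc G : ℝ) = ∑ i : Fin n,
        if (Pi.single i 1 : Fin n → ℝ) ∈ G then (1 : ℝ) else 0 := by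
      unfold cc
      rw [Finset.sum_ite, Finset.sum_const_zero, add_zero, Finset.sum_const, nsmul_eq_mul, mul_one]
    rw [h2]
    unfold wc
    rw [← Finset.sum_sub_distrib, Finset.mul_sum]
    push_cast
    refine Finset.sum_congr rfl fun i _ => ?_
    by_cases h : (Pi.single i 1 : Fin n → ℝ) ∈ G
    · simp only [if_pos h]
      have h3 : a i ∣ el a G := Finset.dvd_lcm (Finset.mem_filter.2 ⟨Finset.mem_univ i, h⟩)
      rw [Nat.cast_div h3 (by exact_mod_cast (ha i).ne')]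
      unfold wa
      ring
    · simp only [if_neg h]
      simp
  unfold nuG
  rw [nuA_eq ha, Nat.cast_add, h1, Nat.cast_mul, Nat.cast_sub (cc_le G)]
  ring

lemma nuA_posR {a : Fin n → ℕ} (ha : ∀ i, 0 < a i) {G : Submodule ℝ (Fin n → ℝ)} (hG : G ≠ ⊥) :
    (0 : ℝ) < nuA a G := by
  have hr : 0 < finrank ℝ G := Submodule.one_le_finrank_iff.2 hG
  have hP : (0 : ℝ) < PP a := by exact_mod_cast PP_pos ha
  rw [nuA_eq ha]
  refine mul_pos hP ?_
  have h1 := wc_le ha G
  have h2 : (cc G : ℝ) ≤ finrank ℝ G := by exact_mod_cast cc_le G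
  have h3 := mul_le_mul_of_nonneg_left h2 (wa_nonneg (PP_pos ha))
  have h4 : wa (PP a) * finrank ℝ G < 1 * finrank ℝ G :=
    mul_lt_mul_of_pos_right (wa_lt (PP_pos ha)) (by exact_mod_cast hr)
  linarith

lemma nuG_pos {a : Fin n → ℕ} (ha : ∀ i, 0 < a i) {G : Submodule ℝ (Fin n → ℝ)} (hG : G ≠ ⊥) :
    0 < nuG a G := by
  have h1 := nuG_eq ha G
  have h2 := nuA_posR ha hG
  have hP : (0 : ℝ) < PP a := by exact_mod_cast PP_pos ha
  have hE : (0 : ℝ) < el a G := by exact_mod_cast el_pos ha G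
  have h3 : (0 : ℝ) < PP a * nuG a G := by
    rw [h1]
    exact mul_pos hE h2
  have h4 : (0 : ℝ) < nuG a G := pos_of_mul_pos_right h3 hP.le
  exact_mod_cast h4

lemma cx_dform (a : Fin n → ℕ) (v : Fin n → ℝ) :
    cx (dform a v) = ∑ i, C (v i : ℂ) * X i ^ a i := by
  unfold cx dform
  rw [map_sum]
  simp only [map_mul, map_pow, map_C, map_X, Complex.coe_algebraMap]

lemma diagProd_eq (c : ι → Fin n → ℝ) (m : ι → ℕ) (a : Fin n → ℕ) : diagProd c m a = cx (qf c m a) := by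
  have h1 : cx (qf c m a) = ∏ h, cx (dform a (c h)) ^ m h := by
    unfold cx qf
    rw [map_prod]
    simp only [map_pow]
  rw [h1]
  unfold diagProd
  simp only [cx_dform]

/-- the weights of the variables -/
def wts (a : Fin n → ℕ) : Fin n → ℤ := fun i => ((PP a / a i : ℕ) : ℤ)

lemma wts_pos {a : Fin n → ℕ} (ha : ∀ i, 0 < a i) (i : Fin n) : 0 < wts a i := by
  unfold wts
  have h1 : 0 < PP a / a i := Nat.div_pos (Nat.le_of_dvd (PP_pos ha) (PP_div i)) (ha i)
  exact_mod_cast h1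

lemma diagProd_hom (c : ι → Fin n → ℝ) (m : ι → ℕ) (a : Fin n → ℕ) :
    (diagProd c m a).IsWeightedHomogeneous (wts a) (∑ h, m h • (PP a : ℤ)) := by
  unfold diagProd
  refine IsWeightedHomogeneous.prod _ _ _ fun h _ => ?_
  refine IsWeightedHomogeneous.pow ?_ _
  refine IsWeightedHomogeneous.sum _ _ _ fun i _ => ?_
  have h1 := ((isWeightedHomogeneous_X ℂ (wts a) i).pow (a i)).C_mul (c h i : ℂ)
  have h2 : a i • wts a i = (PP a : ℤ) := by
    unfold wts
    rw [nsmul_eq_mul]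
    exact_mod_cast Nat.mul_div_cancel' (PP_div (a := a) i)
  rwa [h2] at h1

lemma cx_dform_ne {a : Fin n → ℕ} (ha : ∀ i, 0 < a i) {v : Fin n → ℝ} (hv : v ≠ 0) : cx (dform a v) ≠ 0 := by
  obtain ⟨i, hi⟩ := Function.ne_iff.1 hv
  intro h0
  have h1 := ev_cx (dform a v) (Pi.single i 1)
  rw [h0, map_zero, rv_dform] at h1
  have h2 : pw a (Pi.single i 1 : Fin n → ℝ) = Pi.single i 1 := by
    funext k
    unfold pw
    by_cases hk : k = i
    · rw [hk, Pi.single_eq_same, one_pow]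
    · rw [Pi.single_eq_of_ne hk, zero_pow (ha k).ne']
  rw [h2, dotProduct_single, mul_one] at h1
  exact hi (by exact_mod_cast h1.symm)

lemma diagProd_ne {c : ι → Fin n → ℝ} {m : ι → ℕ} {a : Fin n → ℕ} (ha : ∀ i, 0 < a i) (hc : ∀ h, c h ≠ 0) :
    diagProd c m a ≠ 0 := by
  unfold diagProd
  rw [Finset.prod_ne_zero_iff]
  intro h _
  rw [← cx_dform]
  exact pow_ne_zero _ (cx_dform_ne ha (hc h))

/-- **The poles are roots.** -/
theorem poles_diag {c : ι → Fin n → ℝ} {m : ι → ℕ} {a : Fin n → ℕ} (ha : ∀ i, 2 ≤ a i) (ha0 : ∀ i, 0 < a i)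
    (hc : ∀ h, c h ≠ 0) (hm : ∀ h, 0 < m h) {I : Type} [Fintype I]
    (G : I → Submodule ℝ (Fin n → ℝ)) (hG : ∀ i, IsIrr (bt c) (G i) ∧ ∃ x₀, GoodW c m a (G i) x₀)
    (χ : Finset I → ℤ) (s₀ : ℂ)
    (hs : (topZ (fun i => nuG a (G i)) (fun i => nG c m a (G i)) χ).denom.eval s₀ = 0)
    (b : Polynomial ℂ) (hb : IsLocalBFunction (diagProd c m a) b) : b.eval s₀ = 0 := by
  classical
  have hb' : IsBFunction (cx (qf c m a)) b := by
    rw [← diagProd_eq]
    exact global_of_localW (wts_pos ha0) _ (diagProd_ne ha0 hc) _ (diagProd_hom c m a) b hb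
  obtain ⟨i, hN, rfl⟩ := pole_topZ _ _ χ (fun i => nuG_pos ha0 (hG i).1.1) s₀ hs
  have hM : 0 < mu c m (G i) := by
    unfold nG at hN
    exact Nat.pos_of_mul_pos_left hN
  obtain ⟨x₀, hx₀⟩ := (hG i).2
  have key := critW ha ha0 hc hm (hG i).1.2.1 hM hx₀ hb'
  have hP : (PP a : ℝ) ≠ 0 := by exact_mod_cast (PP_pos ha0).ne'
  have hE : (el a (G i) : ℝ) ≠ 0 := by exact_mod_cast (el_pos ha0 (G i)).ne'
  have hM' : (mu c m (G i) : ℝ) ≠ 0 := by exact_mod_cast hM.ne'
  have e : -(nuG a (G i) : ℝ) / (nG c m a (G i) : ℕ) =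
      -(nuA a (G i) : ℝ) / (PP a * mu c m (G i) : ℕ) := by
    have h1 := nuG_eq ha0 (G i)
    unfold nG
    push_cast
    rw [div_eq_div_iff (mul_ne_zero hE hM') (mul_ne_zero hP hM')]
    linear_combination (-(mu c m (G i) : ℝ)) * h1
  rw [← e] at key
  convert key using 1
  push_cast
  rfl

/-- **Flats of rank at most three, and at most four variables with equal exponents, reduced.** -/
theorem common_le_four {c : ι → Fin n → ℝ} {a : Fin n → ℕ} (ha : ∀ i, 2 ≤ a i)
    (hc : ∀ h, c h ≠ 0) (hred : ∀ (h h' : ι) (t : ℝ), c h' = t • c h → h' = h)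
    (hco : ∀ (h : ι) (i : Fin n) (t : ℝ), c h ≠ t • Pi.single i 1)
    {G : Submodule ℝ (Fin n → ℝ)} (hn : finrank ℝ G ≤ 3 ∨ (n ≤ 4 ∧ ∀ i j, a i = a j))
    (hI : IsIrr (bt c) G) : CommonW c (fun _ => 1) a G := by
  classical
  refine commonW_four ha hc hred hco hI ?_
  rcases hn with hn | ⟨hn, heq⟩
  · exact Or.inl hn
  have h1 : finrank ℝ G ≤ n := by
    have := Submodule.finrank_le G
    rwa [finrank_fintype_fun_eq_card, Fintype.card_fin] at this
  by_cases h3 : finrank ℝ G ≤ 3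
  · exact Or.inl h3
  · right
    have hn4 : n = 4 := by omega
    have hr : finrank ℝ G = 4 := by omega
    have htop : G = ⊤ := by
      refine Submodule.eq_top_of_finrank_eq ?_
      rw [finrank_fintype_fun_eq_card, Fintype.card_fin, hr, hn4]
    refine ⟨⟨hr, ?_⟩, ?_⟩
    · unfold cc
      rw [htop]
      simp [hn4]
    · have i0 : Fin n := ⟨0, by omega⟩
      refine ⟨a i0, PP a / a i0, ha i0, ?_, (Nat.div_mul_cancel (PP_div i0)).symm, fun S => ?_⟩
      · have ha0 : ∀ i, 0 < a i := fun i => by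
          have := ha i
          omega
        exact Nat.div_pos (Nat.le_of_dvd (PP_pos ha0) (PP_div i0)) (ha0 i0)
      · unfold bs cc
        rw [← Finset.sum_filter, mul_comm, ← smul_eq_mul, ← Finset.sum_const]
        exact Finset.sum_congr rfl fun i _ => by rw [heq i i0]

end Pool.Agent.T6.H16.RW
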