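import Pool.Agent.T6.H16.RW.E2

set_option autoImplicit false

/-! Three variables, arbitrary multiplicities. -/

namespace Pool.Agent.T6.H16.RW

open Pool.Agent.T6.H16.RA

open Module

variable {n : ℕ} {ι : Type} [Fintype ι]
variable {c : ι → Fin n → ℝ} {m : ι → ℕ} {a : Fin n → ℕ} {G : Submodule ℝ (Fin n → ℝ)}

/-- a line which contains a form `c_h` -/
lemma line_mu (hred : ∀ (h h' : ι) (t : ℝ), c h' = t • c h → h' = h) {S : Submodule ℝ (Fin n → ℝ)}
    {h : ι} (h0 : c h ≠ 0) (hh : c h ∈ S) (hS : finrank ℝ S ≤ 1) : mu c m S = m h := by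
  classical
  have h1 : Submodule.span ℝ {c h} = S := by
    refine Submodule.eq_of_le_of_finrank_le ?_ ?_
    · rw [Submodule.span_singleton_le_iff_mem]
      exact hh
    · rw [finrank_span_singleton h0]
      exact hS
  unfold mu
  rw [Finset.sum_eq_single h]
  · rw [if_pos hh]
  · intro h' _ hne
    rw [if_neg]
    intro h2
    rw [← h1, Submodule.mem_span_singleton] at h2
    obtain ⟨t, ht⟩ := h2
    exact hne (hred h h' t ht.symm)
  · intro h2
    exact absurd (Finset.mem_univ h) h2

lemma line_cc (hco : ∀ (h : ι) (i : Fin n) (t : ℝ), c h ≠ t • Pi.single i 1)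
    {S : Submodule ℝ (Fin n → ℝ)} {h : ι} (hh : c h ∈ S) (hS : finrank ℝ S ≤ 1) : cc S = 0 := by
  classical
  unfold cc
  rw [Finset.card_eq_zero, Finset.filter_eq_empty_iff]
  intro i _ hi
  have h1 : Submodule.span ℝ {(Pi.single i 1 : Fin n → ℝ)} = S := by
    refine Submodule.eq_of_le_of_finrank_le ?_ ?_
    · rw [Submodule.span_singleton_le_iff_mem]
      exact hi
    · rw [finrank_span_singleton (fun h0 => by
        have := congrFun h0 i
        simp at this)]
      exact hS
  rw [← h1, Submodule.mem_span_singleton] at hh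
  obtain ⟨t, ht⟩ := hh
  exact hco h i t ht.symm

/-- a heavy flat contains a form `c_h` -/
lemma heavy_form {S : Submodule ℝ (Fin n → ℝ)} (hS : HeavyW c m a G S) : ∃ h, c h ∈ S := by
  classical
  by_contra hcon
  push Not at hcon
  have h1 : mu c m S = 0 := by
    unfold mu
    exact Finset.sum_eq_zero fun h _ => if_neg (hcon h)
  have h2 := hS.2.2.2
  rw [h1, mul_zero] at h2
  exact Nat.not_lt_zero _ h2

/-- two different lines which contain forms are not both heavy, if the weighted rank of `G` is at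
most two -/
lemma two_lines (hc : ∀ h, c h ≠ 0) (hred : ∀ (h h' : ι) (t : ℝ), c h' = t • c h → h' = h)
    (hco : ∀ (h : ι) (i : Fin n) (t : ℝ), c h ≠ t • Pi.single i 1)
    (hG : nuA a G ≤ 2 * PP a) {S T : Submodule ℝ (Fin n → ℝ)} (hS : HeavyW c m a G S)
    (hT : HeavyW c m a G T) (rS : finrank ℝ S ≤ 1) (rT : finrank ℝ T ≤ 1) : S = T := by
  classical
  obtain ⟨h, hh⟩ := heavy_form hS
  obtain ⟨h', hh'⟩ := heavy_form hT
  have hspan : ∀ (h : ι) (S : Submodule ℝ (Fin n → ℝ)), c h ∈ S → finrank ℝ S ≤ 1 →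
      Submodule.span ℝ {c h} = S := by
    intro h S hh hS
    refine Submodule.eq_of_le_of_finrank_le ?_ ?_
    · rw [Submodule.span_singleton_le_iff_mem]
      exact hh
    · rw [finrank_span_singleton (hc h)]
      exact hS
  by_cases heq : h = h'
  · rw [← hspan h S hh rS, ← hspan h' T hh' rT, heq]
  exfalso
  have e1 := hS.2.2.2
  have e2 := hT.2.2.2
  have hr1 : finrank ℝ S = 1 := by
    rw [← hspan h S hh rS, finrank_span_singleton (hc h)]
  have hr2 : finrank ℝ T = 1 := by
    rw [← hspan h' T hh' rT, finrank_span_singleton (hc h')]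
  have c1 := line_cc hco hh rS
  have c2 := line_cc hco hh' rT
  have n1 : nuA a S = PP a := by
    unfold nuA
    rw [c1, bs_zero c1, hr1]
    simp
  have n2 : nuA a T = PP a := by
    unfold nuA
    rw [c2, bs_zero c2, hr2]
    simp
  rw [line_mu hred (hc h) hh rS, n1] at e1
  rw [line_mu hred (hc h') hh' rT, n2] at e2
  have hM : m h + m h' ≤ mu c m G := by
    unfold mu
    have h5 : ∑ x ∈ ({h, h'} : Finset ι), (if c x ∈ G then m x else 0) ≤
        ∑ x, (if c x ∈ G then m x else 0) :=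
      Finset.sum_le_sum_of_subset (Finset.subset_univ _)
    rwa [Finset.sum_pair heq, if_pos (hS.1 hh), if_pos (hT.1 hh')] at h5
  have e3 : nuA a G * (m h + m h') ≤ nuA a G * mu c m G := Nat.mul_le_mul_left _ hM
  have e4 : nuA a G * mu c m G ≤ (2 * PP a) * mu c m G := Nat.mul_le_mul_right _ hG
  have e5 : (2 * PP a) * mu c m G = mu c m G * PP a + mu c m G * PP a := by ring
  rw [Nat.mul_add] at e3
  omega

/-- **Flats of rank at most three with weighted rank at most two.** -/
theorem common_three (ha : ∀ i, 0 < a i) (hc : ∀ h, c h ≠ 0)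
    (hred : ∀ (h h' : ι) (t : ℝ), c h' = t • c h → h' = h)
    (hco : ∀ (h : ι) (i : Fin n) (t : ℝ), c h ≠ t • Pi.single i 1)
    (hI : IsIrr (bt c) G) (hr : finrank ℝ G ≤ 3) (hG : nuA a G ≤ 2 * PP a) : CommonW c m a G := by
  refine commonW ha hI ?_
  intro S T hS hT
  by_contra hcon
  push Not at hcon
  obtain ⟨c1, c2, c3⟩ := hcon
  have r1 : finrank ℝ (S ⊔ T : Submodule ℝ (Fin n → ℝ)) < finrank ℝ G :=
    Submodule.finrank_lt_finrank_of_lt (lt_of_le_of_ne (sup_le hS.1 hT.1) c3)
  have r2 : finrank ℝ S < finrank ℝ (S ⊔ T : Submodule ℝ (Fin n → ℝ)) := by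
    refine Submodule.finrank_lt_finrank_of_lt (lt_of_le_of_ne le_sup_left fun h => c2 ?_)
    rw [h]
    exact le_sup_right
  have r3 : finrank ℝ T < finrank ℝ (S ⊔ T : Submodule ℝ (Fin n → ℝ)) := by
    refine Submodule.finrank_lt_finrank_of_lt (lt_of_le_of_ne le_sup_right fun h => c1 ?_)
    rw [h]
    exact le_sup_left
  exact c1 (two_lines hc hred hco hG hS hT (by omega) (by omega)).le

/-- **At most three variables.** -/
theorem common_le_three (ha : ∀ i, 2 ≤ a i) (hc : ∀ h, c h ≠ 0)
    (hred : ∀ (h h' : ι) (t : ℝ), c h' = t • c h → h' = h)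
    (hco : ∀ (h : ι) (i : Fin n) (t : ℝ), c h ≠ t • Pi.single i 1) (hn : n ≤ 3)
    (hI : IsIrr (bt c) G) : CommonW c m a G := by
  classical
  have ha0 : ∀ i, 0 < a i := fun i => lt_of_lt_of_le Nat.zero_lt_two (ha i)
  have h1 := Submodule.finrank_le G
  rw [finrank_fintype_fun_eq_card, Fintype.card_fin] at h1
  by_cases h2 : finrank ℝ G ≤ 2
  · exact commonW ha0 hI (nested_two h2 hc)
  have h3 : finrank ℝ G = 3 := by omega
  have hn3 : n = 3 := by omega
  have htop : G = ⊤ := by
    refine Submodule.eq_top_of_finrank_eq ?_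
    rw [finrank_fintype_fun_eq_card, Fintype.card_fin, h3, hn3]
  have hcc : cc G = 3 := by
    unfold cc
    rw [htop]
    simp [hn3]
  refine common_three ha0 hc hred hco hI h3.le ?_
  have h4 := bs_le ha G
  rw [hcc] at h4
  unfold nuA
  rw [h3, hcc]
  simp only [Nat.sub_self, mul_zero, Nat.zero_add]
  omega

end Pool.Agent.T6.H16.RW
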