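import Pool.Agent.T6.H16.RW.E3

set_option autoImplicit false

/-! Four variables. -/

namespace Pool.Agent.T6.H16.RW

open Pool.Agent.T6.H16.RA

open Module

/-- the numerical part -/
lemma num4 (w s t : Fin 4 → ℝ) (hw0 : ∀ i, 0 < w i) (hw : ∀ i, w i ≤ 1 / 2)
    (htri : ∀ i j l, i ≠ j → j ≠ l → i ≠ l → w l ≤ w i + w j)
    (hst : ∀ k, (s k = 0 ∧ t k = 0) ∨ (s k = 1 ∧ t k = 0) ∨ (s k = 2 ∧ t k = 1)) (k0 : Fin 4)
    (hk0 : s k0 = 0 ∧ t k0 = 0)
    (h1 : 6 - ∑ k, s k * (1 - w k) < ∑ k, w k + (3 - ∑ k, t k))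
    (h2 : 6 - ∑ k, s k * (1 - w k) < 2 * ∑ k, w k) : False := by
  simp only [Fin.sum_univ_four] at h1 h2
  have p0 := hw0 0
  have p1 := hw0 1
  have p2 := hw0 2
  have p3 := hw0 3
  have q0 := hw 0
  have q1 := hw 1
  have q2 := hw 2
  have q3 := hw 3
  have t012 := htri 0 1 2 (by decide) (by decide) (by decide)
  have t013 := htri 0 1 3 (by decide) (by decide) (by decide)
  have t021 := htri 0 2 1 (by decide) (by decide) (by decide)
  have t023 := htri 0 2 3 (by decide) (by decide) (by decide)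
  have t031 := htri 0 3 1 (by decide) (by decide) (by decide)
  have t032 := htri 0 3 2 (by decide) (by decide) (by decide)
  have t120 := htri 1 2 0 (by decide) (by decide) (by decide)
  have t123 := htri 1 2 3 (by decide) (by decide) (by decide)
  have t130 := htri 1 3 0 (by decide) (by decide) (by decide)
  have t132 := htri 1 3 2 (by decide) (by decide) (by decide)
  have t230 := htri 2 3 0 (by decide) (by decide) (by decide)
  have t231 := htri 2 3 1 (by decide) (by decide) (by decide)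
  have z0 := hst 0
  have z1 := hst 1
  have z2 := hst 2
  have z3 := hst 3
  generalize w 0 = w0 at *
  generalize w 1 = w1 at *
  generalize w 2 = w2 at *
  generalize w 3 = w3 at *
  obtain ⟨e1, e2⟩ := hk0
  fin_cases k0
  · have e1' : s 0 = 0 := e1
    have e2' : t 0 = 0 := e2
    rcases z1 with ⟨a1, b1⟩ | ⟨a1, b1⟩ | ⟨a1, b1⟩ <;> rcases z2 with ⟨a2, b2⟩ | ⟨a2, b2⟩ | ⟨a2, b2⟩ <;>
      rcases z3 with ⟨a3, b3⟩ | ⟨a3, b3⟩ | ⟨a3, b3⟩ <;>
      (rw [e1', a1, a2, a3] at h1 h2; rw [e2', b1, b2, b3] at h1; linarith)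
  · have e1' : s 1 = 0 := e1
    have e2' : t 1 = 0 := e2
    rcases z0 with ⟨a1, b1⟩ | ⟨a1, b1⟩ | ⟨a1, b1⟩ <;> rcases z2 with ⟨a2, b2⟩ | ⟨a2, b2⟩ | ⟨a2, b2⟩ <;>
      rcases z3 with ⟨a3, b3⟩ | ⟨a3, b3⟩ | ⟨a3, b3⟩ <;>
      (rw [e1', a1, a2, a3] at h1 h2; rw [e2', b1, b2, b3] at h1; linarith)
  · have e1' : s 2 = 0 := e1
    have e2' : t 2 = 0 := e2
    rcases z0 with ⟨a1, b1⟩ | ⟨a1, b1⟩ | ⟨a1, b1⟩ <;> rcases z1 with ⟨a2, b2⟩ | ⟨a2, b2⟩ | ⟨a2, b2⟩ <;>
      rcases z3 with ⟨a3, b3⟩ | ⟨a3, b3⟩ | ⟨a3, b3⟩ <;>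
      (rw [e1', a1, a2, a3] at h1 h2; rw [e2', b1, b2, b3] at h1; linarith)
  · have e1' : s 3 = 0 := e1
    have e2' : t 3 = 0 := e2
    rcases z0 with ⟨a1, b1⟩ | ⟨a1, b1⟩ | ⟨a1, b1⟩ <;> rcases z1 with ⟨a2, b2⟩ | ⟨a2, b2⟩ | ⟨a2, b2⟩ <;>
      rcases z2 with ⟨a3, b3⟩ | ⟨a3, b3⟩ | ⟨a3, b3⟩ <;>
      (rw [e1', a1, a2, a3] at h1 h2; rw [e2', b1, b2, b3] at h1; linarith)

section gen

variable {n : ℕ} {ι : Type} [Fintype ι]
variable {c : ι → Fin n → ℝ} {m : ι → ℕ} {a : Fin n → ℕ} {G S T : Submodule ℝ (Fin n → ℝ)}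

lemma heavy_real (ha : ∀ i, 0 < a i) (hS : HeavyW c m a G S) :
    (mu c m G : ℝ) * (finrank ℝ S - wc a S) < (finrank ℝ G - wc a G) * mu c m S := by
  have h1 : (mu c m G : ℝ) * nuA a S < nuA a G * mu c m S := by exact_mod_cast hS.2.2.2
  rw [nuA_eq ha, nuA_eq ha] at h1
  have hP : (0 : ℝ) < PP a := by exact_mod_cast PP_pos ha
  have h2 : (PP a : ℝ) * ((mu c m G : ℝ) * (finrank ℝ S - wc a S)) <
      PP a * ((finrank ℝ G - wc a G) * mu c m S) := by linarith
  exact lt_of_mul_lt_mul_left h2 hP.le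

lemma heavy_of_real (ha : ∀ i, 0 < a i) (h1 : S ≤ G) (h2 : S ≠ G) (h3 : IsFlat (bt c) S)
    (h4 : (mu c m G : ℝ) * (finrank ℝ S - wc a S) < (finrank ℝ G - wc a G) * mu c m S) :
    HeavyW c m a G S := by
  refine ⟨h1, h2, h3, ?_⟩
  have hP : (0 : ℝ) < PP a := by exact_mod_cast PP_pos ha
  have h5 := mul_lt_mul_of_pos_left h4 hP
  have h6 : (mu c m G : ℝ) * nuA a S < nuA a G * mu c m S := by
    rw [nuA_eq ha, nuA_eq ha]
    linarith
  exact_mod_cast h6

lemma heavy_inf (ha : ∀ i, 0 < a i) (hS : HeavyW c m a G S) (hT : HeavyW c m a G T)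
    (h1 : S ⊔ T = G) : HeavyW c m a G (fl (bt c) (S ⊓ T)) := by
  have h2 := mu_super (α := c) (m := m) S T
  have h3 := nuA_sub ha S T
  rw [h1] at h2 h3
  have h4 : nuA a (fl (bt c) (S ⊓ T)) ≤ nuA a (S ⊓ T) := nuA_fl _
  have h6 : fl (bt c) (S ⊓ T) ≤ S := (fl_le _).trans inf_le_left
  refine ⟨h6.trans hS.1, fun h8 => ?_, fl_flat _, ?_⟩
  · rw [h8] at h6
    exact hS.2.1 (le_antisymm hS.1 h6)
  · rw [muW_fl]
    have a1 := hS.2.2.2
    have a2 := hT.2.2.2
    have a3 : mu c m G * nuA a (fl (bt c) (S ⊓ T)) ≤ mu c m G * nuA a (S ⊓ T) :=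
      Nat.mul_le_mul_left _ h4
    have a4 : mu c m G * nuA a (S ⊓ T) + mu c m G * nuA a G ≤
        mu c m G * nuA a S + mu c m G * nuA a T := by
      rw [← Nat.mul_add, ← Nat.mul_add]
      exact Nat.mul_le_mul_left _ h3
    have a5 : nuA a G * mu c m S + nuA a G * mu c m T ≤
        nuA a G * mu c m (S ⊓ T) + nuA a G * mu c m G := by
      rw [← Nat.mul_add, ← Nat.mul_add]
      exact Nat.mul_le_mul_left _ h2
    have a6 : nuA a G * mu c m G = mu c m G * nuA a G := Nat.mul_comm _ _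
    omega

lemma wc_mono (ha : ∀ i, 0 < a i) (h : S ≤ T) : wc a S ≤ wc a T := by
  classical
  unfold wc
  refine Finset.sum_le_sum fun i _ => ?_
  have h0 := wa_nonneg (ha i)
  by_cases h1 : (Pi.single i 1 : Fin n → ℝ) ∈ S
  · rw [if_pos h1, if_pos (h h1)]
  · rw [if_neg h1]
    split_ifs <;> linarith

lemma wc_zero (h : cc S = 0) : wc a S = 0 := by
  classical
  unfold cc at h
  rw [Finset.card_eq_zero, Finset.filter_eq_empty_iff] at h
  unfold wc
  exact Finset.sum_eq_zero fun i hi => if_neg (h (Finset.mem_univ i))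

/-- lines are not heavy -/
lemma line_bound (ha : ∀ i, 0 < a i) (hc : ∀ h, c h ≠ 0)
    (hred : ∀ (h h' : ι) (t : ℝ), c h' = t • c h → h' = h)
    (hco : ∀ (h : ι) (i : Fin n) (t : ℝ), c h ≠ t • Pi.single i 1)
    (hno : ∀ S, HeavyW c m a G S → 2 ≤ finrank ℝ S) (hG2 : 2 ≤ finrank ℝ G)
    (hS : S ≤ G) (hr : finrank ℝ S ≤ 1) :
    ((finrank ℝ G : ℝ) - wc a G) * mu c m S ≤ mu c m G * (1 - cc S) := by
  classical
  by_cases hf : ∃ h, c h ∈ S
  · obtain ⟨h, hh⟩ := hf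
    have hspan : Submodule.span ℝ {c h} = S := by
      refine Submodule.eq_of_le_of_finrank_le ?_ ?_
      · rw [Submodule.span_singleton_le_iff_mem]
        exact hh
      · rw [finrank_span_singleton (hc h)]
        exact hr
    have hr1 : finrank ℝ S = 1 := by
      rw [← hspan, finrank_span_singleton (hc h)]
    have hcc := line_cc hco hh hr
    by_contra hcon
    push Not at hcon
    have hflat : IsFlat (bt c) S := by
      apply le_antisymm
      · conv_lhs => rw [← hspan]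
        rw [Submodule.span_singleton_le_iff_mem]
        exact Submodule.subset_span ⟨hh, Sum.inl h, rfl⟩
      · rw [Submodule.span_le]
        rintro v ⟨h1, -⟩
        exact h1
    have h1 : HeavyW c m a G S := by
      refine heavy_of_real ha hS (fun h2 => ?_) hflat ?_
      · rw [h2] at hr1
        omega
      · rw [hr1, wc_zero hcc]
        rw [hcc] at hcon
        push_cast at hcon ⊢
        exact hcon
    have h2 := hno _ h1
    omega
  · push Not at hf
    have h1 : mu c m S = 0 := by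
      unfold mu
      exact Finset.sum_eq_zero fun h _ => if_neg (hf h)
    rw [h1, Nat.cast_zero, mul_zero]
    refine mul_nonneg (Nat.cast_nonneg _) ?_
    have h2 : (cc S : ℝ) ≤ 1 := by exact_mod_cast (cc_le S).trans hr
    linarith

variable {A B C J : Submodule ℝ (Fin n → ℝ)}

lemma mu_three (hA : A ≤ J) (hB : B ≤ J) (hC : C ≤ J) :
    mu c m A + mu c m B + mu c m C ≤
      mu c m J + (mu c m (A ⊓ B) + mu c m (A ⊓ C) + mu c m (B ⊓ C)) := by
  classical
  unfold mu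
  simp only [← Finset.sum_add_distrib]
  refine Finset.sum_le_sum fun h _ => ?_
  simp only [Submodule.mem_inf]
  by_cases h1 : c h ∈ A <;> by_cases h2 : c h ∈ B <;> by_cases h3 : c h ∈ C <;>
    simp only [h1, h2, h3, and_true, and_false, true_and, false_and, if_true, if_false]
  all_goals
    by_cases h4 : c h ∈ J
    · simp only [h4, if_true]
      omega
    · first
      | exact absurd (hA h1) h4
      | exact absurd (hB h2) h4
      | exact absurd (hC h3) h4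
      | simp

lemma mu_lines (hc : ∀ h, c h ≠ 0) (hA : A ≤ J) (hB : B ≤ J) (hABC : A ⊓ B ⊓ C = ⊥) :
    mu c m (A ⊓ B) + mu c m (A ⊓ C) + mu c m (B ⊓ C) ≤ mu c m J := by
  classical
  unfold mu
  simp only [← Finset.sum_add_distrib]
  refine Finset.sum_le_sum fun h _ => ?_
  simp only [Submodule.mem_inf]
  by_cases h1 : c h ∈ A <;> by_cases h2 : c h ∈ B <;> by_cases h3 : c h ∈ C <;>
    simp only [h1, h2, h3, and_true, and_false, true_and, false_and, if_true, if_false]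
  all_goals
    first
    | (exfalso
       have h5 : c h ∈ A ⊓ B ⊓ C := ⟨⟨h1, h2⟩, h3⟩
       rw [hABC, Submodule.mem_bot] at h5
       exact hc h h5)
    | (rw [if_pos (hA h1)]; omega)
    | (rw [if_pos (hB h2)]; omega)
    | simp

end gen

end Pool.Agent.T6.H16.RW
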