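import Pool.Agent.T6.H16.RW.E4

set_option autoImplicit false

/-! Four variables: the irreducible flat of rank four. -/

namespace Pool.Agent.T6.H16.RW

open Pool.Agent.T6.H16.RA

open Module

variable {ι : Type} [Fintype ι]
variable {c : ι → Fin 4 → ℝ} {m : ι → ℕ} {a : Fin 4 → ℕ} {S T : Submodule ℝ (Fin 4 → ℝ)}

lemma fr_top : finrank ℝ (⊤ : Submodule ℝ (Fin 4 → ℝ)) = 4 := by
  rw [finrank_top, finrank_fintype_fun_eq_card, Fintype.card_fin]

/-- the indicator of a coordinate -/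
noncomputable def iv (S : Submodule ℝ (Fin 4 → ℝ)) (k : Fin 4) : ℝ :=
  open Classical in if (Pi.single k 1 : Fin 4 → ℝ) ∈ S then 1 else 0

lemma wc_iv (S : Submodule ℝ (Fin 4 → ℝ)) : wc a S = ∑ k, iv S k * wa (a k) := by
  classical
  unfold wc iv
  refine Finset.sum_congr rfl fun k _ => ?_
  split_ifs <;> simp

lemma cc_iv (S : Submodule ℝ (Fin 4 → ℝ)) : (cc S : ℝ) = ∑ k, iv S k := by
  classical
  unfold cc iv
  rw [Finset.sum_ite, Finset.sum_const_zero, add_zero, Finset.sum_const, nsmul_eq_mul, mul_one]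

lemma iv_top (k : Fin 4) : iv ⊤ k = 1 := by
  classical
  unfold iv
  rw [if_pos Submodule.mem_top]

lemma iv_cases (S : Submodule ℝ (Fin 4 → ℝ)) (k : Fin 4) : iv S k = 0 ∨ iv S k = 1 := by
  classical
  unfold iv
  split_ifs
  · exact Or.inr rfl
  · exact Or.inl rfl

lemma wc_top : wc a (⊤ : Submodule ℝ (Fin 4 → ℝ)) = ∑ k, wa (a k) := by
  rw [wc_iv]
  exact Finset.sum_congr rfl fun k _ => by rw [iv_top, one_mul]

lemma wa_half {k : ℕ} (hk : 2 ≤ k) : (1 : ℝ) / 2 ≤ wa k := by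
  unfold wa
  have h1 : (2 : ℝ) ≤ k := by exact_mod_cast hk
  have h2 : (1 : ℝ) / k ≤ 1 / 2 := one_div_le_one_div_of_le (by norm_num) h1
  linarith

lemma wc_half (ha : ∀ i, 2 ≤ a i) (T : Submodule ℝ (Fin 4 → ℝ)) :
    wc a T + (4 - cc T) / 2 ≤ wc a ⊤ := by
  have h4 : (4 - (cc T : ℝ)) / 2 = ∑ k : Fin 4, (1 - iv T k) / 2 := by
    rw [← Finset.sum_div, Finset.sum_sub_distrib, ← cc_iv]
    simp
  rw [h4, wc_iv, wc_top, ← Finset.sum_add_distrib]
  refine Finset.sum_le_sum fun k _ => ?_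
  have h1 := wa_half (ha k)
  rcases iv_cases T k with h | h
  · rw [h]
    linarith
  · rw [h]
    linarith

lemma wc_top_le (ha : ∀ i, 0 < a i) : wc a (⊤ : Submodule ℝ (Fin 4 → ℝ)) ≤ 4 := by
  rw [wc_top]
  calc ∑ k, wa (a k) ≤ ∑ _k : Fin 4, (1 : ℝ) := Finset.sum_le_sum fun k _ => (wa_lt (ha k)).le
    _ = 4 := by simp

/-- two heavy planes share a form -/
lemma plane_line (ha : ∀ i, 0 < a i) (hS : HeavyW c m a ⊤ S) (hT : HeavyW c m a ⊤ T)
    (rS : finrank ℝ S = 2) (rT : finrank ℝ T = 2) : ∃ j, bt c j ∈ S ⊓ T := by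
  classical
  by_contra hcon
  push Not at hcon
  have hmu : mu c m (S ⊓ T) = 0 := by
    unfold mu
    exact Finset.sum_eq_zero fun h _ => if_neg (hcon (Sum.inl h))
  have hcc : cc (S ⊓ T) = 0 := by
    unfold cc
    rw [Finset.card_eq_zero, Finset.filter_eq_empty_iff]
    exact fun i _ => hcon (Sum.inr i)
  have hwc := wc_zero (a := a) hcc
  have h1 := heavy_real ha hS
  have h2 := heavy_real ha hT
  rw [rS, fr_top] at h1
  rw [rT, fr_top] at h2
  push_cast at h1 h2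
  have h3 := wc_super ha S T
  rw [hwc, zero_add] at h3
  have h4 : wc a (S ⊔ T) ≤ wc a ⊤ := wc_mono ha le_top
  have h5 : (mu c m S : ℝ) + mu c m T ≤ mu c m ⊤ := by
    have h6 := mu_super (α := c) (m := m) S T
    rw [hmu, zero_add] at h6
    exact_mod_cast h6.trans (mu_mono le_top)
  have hW := wc_top_le ha
  have e1 : (4 - wc a ⊤) * ((mu c m S : ℝ) + mu c m T) ≤ (4 - wc a ⊤) * mu c m ⊤ :=
    mul_le_mul_of_nonneg_left h5 (by linarith)
  have e2 : (mu c m ⊤ : ℝ) * (4 - wc a ⊤) ≤ mu c m ⊤ * (4 - wc a S - wc a T) :=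
    mul_le_mul_of_nonneg_left (by linarith) (Nat.cast_nonneg _)
  linarith

/-- a heavy line is in every heavy plane -/
lemma line_plane (ha : ∀ i, 2 ≤ a i) (hc : ∀ h, c h ≠ 0)
    (hco : ∀ (h : ι) (i : Fin 4) (t : ℝ), c h ≠ t • Pi.single i 1) (hS : HeavyW c m a ⊤ S)
    (hT : HeavyW c m a ⊤ T) (rS : finrank ℝ S = 1) (rT : finrank ℝ T = 2) : S ≤ T := by
  classical
  have ha0 : ∀ i, 0 < a i := fun i => lt_of_lt_of_le Nat.zero_lt_two (ha i)
  by_contra hcon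
  obtain ⟨h, hh⟩ := heavy_form hS
  have hccS := line_cc hco hh rS.le
  have hwS := wc_zero (a := a) hccS
  have hbot : S ⊓ T = ⊥ := by
    have h1 : finrank ℝ (S ⊓ T : Submodule ℝ (Fin 4 → ℝ)) < finrank ℝ S :=
      Submodule.finrank_lt_finrank_of_lt (inf_lt_left.2 hcon)
    exact Submodule.finrank_eq_zero.1 (by omega)
  have h1 := heavy_real ha0 hS
  have h2 := heavy_real ha0 hT
  rw [rS, fr_top, hwS] at h1
  rw [rT, fr_top] at h2
  push_cast at h1 h2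
  have h5 : (mu c m S : ℝ) + mu c m T ≤ mu c m ⊤ := by
    have h6 := mu_super (α := c) (m := m) S T
    rw [hbot, mu_bot hc, zero_add] at h6
    exact_mod_cast h6.trans (mu_mono le_top)
  have h7 := wc_half ha T
  have h8 : (cc T : ℝ) ≤ 2 := by
    have := cc_le T
    rw [rT] at this
    exact_mod_cast this
  have hW := wc_top_le ha0
  have e1 : (4 - wc a ⊤) * ((mu c m S : ℝ) + mu c m T) ≤ (4 - wc a ⊤) * mu c m ⊤ :=
    mul_le_mul_of_nonneg_left h5 (by linarith)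
  have e2 : (mu c m ⊤ : ℝ) * (4 - wc a ⊤) ≤ mu c m ⊤ * (3 - wc a T) :=
    mul_le_mul_of_nonneg_left (by linarith) (Nat.cast_nonneg _)
  linarith

/-- **The flat of rank four.** -/
theorem common_top4 (ha : ∀ i, 2 ≤ a i) (hc : ∀ h, c h ≠ 0)
    (hred : ∀ (h h' : ι) (t : ℝ), c h' = t • c h → h' = h)
    (hco : ∀ (h : ι) (i : Fin 4) (t : ℝ), c h ≠ t • Pi.single i 1)
    (htri : ∀ i j l : Fin 4, i ≠ j → j ≠ l → i ≠ l → (1 : ℝ) / a l ≤ 1 / a i + 1 / a j)
    (hI : IsIrr (bt c) (⊤ : Submodule ℝ (Fin 4 → ℝ))) : CommonW c m a ⊤ := by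
  classical
  have ha0 : ∀ i, 0 < a i := fun i => lt_of_lt_of_le Nat.zero_lt_two (ha i)
  by_cases hex : ∃ S, HeavyW c m a ⊤ S
  swap
  · push Not at hex
    have hne : ∃ j, bt c j ∈ (⊤ : Submodule ℝ (Fin 4 → ℝ)) := ⟨Sum.inr 0, Submodule.mem_top⟩
    obtain ⟨j, hj⟩ := hne
    exact ⟨j, hj, fun S hS => absurd hS (hex S)⟩
  obtain ⟨M, hM, hmin⟩ : ∃ M, HeavyW c m a ⊤ M ∧ ∀ T, HeavyW c m a ⊤ T →
      finrank ℝ M ≤ finrank ℝ T := by
    have h1 : ∃ k, ∃ S, HeavyW c m a ⊤ S ∧ finrank ℝ S = k := by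
      obtain ⟨S, hS⟩ := hex
      exact ⟨_, S, hS, rfl⟩
    obtain ⟨M, hM, hk⟩ := Nat.find_spec h1
    refine ⟨M, hM, fun T hT => ?_⟩
    rw [hk]
    exact Nat.find_min' h1 ⟨T, hT, rfl⟩
  have hnuG : nuA a (⊤ : Submodule ℝ (Fin 4 → ℝ)) ≤ 2 * PP a := by
    have hcc : cc (⊤ : Submodule ℝ (Fin 4 → ℝ)) = 4 := by
      unfold cc
      simp
    have h4 := bs_le ha (⊤ : Submodule ℝ (Fin 4 → ℝ))
    rw [hcc] at h4
    unfold nuA
    rw [fr_top, hcc]
    simp only [Nat.sub_self, mul_zero, Nat.zero_add]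
    omega
  have hrk : ∀ S, HeavyW c m a ⊤ S → 1 ≤ finrank ℝ S := by
    intro S hS
    obtain ⟨h, hh⟩ := heavy_form hS
    refine Submodule.one_le_finrank_iff.2 fun h0 => ?_
    rw [h0, Submodule.mem_bot] at hh
    exact hc h hh
  by_cases hall : ∀ T, HeavyW c m a ⊤ T → M ≤ T
  · obtain ⟨h, hh⟩ := heavy_form hM
    exact ⟨Sum.inl h, Submodule.mem_top, fun T hT => hall T hT hh⟩
  push Not at hall
  obtain ⟨T1, hT1, hMT1⟩ := hall
  have hbad : ∀ T, HeavyW c m a ⊤ T → ¬ M ≤ T → finrank ℝ M = 2 ∧ finrank ℝ T = 2 := by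
    intro T hT hMT
    have hne : M ⊔ T ≠ ⊤ := by
      intro h1
      have h2 := heavy_inf ha0 hM hT h1
      have h3 := hmin _ h2
      have h4 : fl (bt c) (M ⊓ T) ≤ M := (fl_le _).trans inf_le_left
      have h5 := Submodule.eq_of_le_of_finrank_le h4 h3
      apply hMT
      rw [← h5]
      exact (fl_le _).trans inf_le_right
    have h1 : finrank ℝ (M ⊔ T : Submodule ℝ (Fin 4 → ℝ)) < 4 := by
      have h := Submodule.finrank_lt_finrank_of_lt (lt_top_iff_ne_top.2 hne)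
      rwa [fr_top] at h
    have h2 : finrank ℝ T < finrank ℝ (M ⊔ T : Submodule ℝ (Fin 4 → ℝ)) := by
      refine Submodule.finrank_lt_finrank_of_lt (lt_of_le_of_ne le_sup_right fun h => hMT ?_)
      rw [h]
      exact le_sup_left
    have h3 := hmin T hT
    have h4 := hrk M hM
    by_cases h5 : finrank ℝ M = 1
    · exfalso
      by_cases h6 : finrank ℝ T ≤ 1
      · exact hMT (two_lines hc hred hco hnuG hM hT h5.le h6).le
      · exact hMT (line_plane ha hc hco hM hT h5 (by omega))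
    · omega
  obtain ⟨hr, hr1⟩ := hbad T1 hT1 hMT1
  obtain ⟨j1, hj1⟩ := plane_line ha0 hM hT1 hr hr1
  by_cases hcom : ∀ T, HeavyW c m a ⊤ T → bt c j1 ∈ T
  · exact ⟨j1, Submodule.mem_top, hcom⟩
  push Not at hcom
  obtain ⟨T2, hT2, hj12⟩ := hcom
  have hMT2 : ¬ M ≤ T2 := fun h => hj12 (h hj1.1)
  obtain ⟨-, hr2⟩ := hbad T2 hT2 hMT2
  exfalso
  have hT12 : ¬ T1 ≤ T2 := fun h => hj12 (h hj1.2)
  have hline : ∀ S T : Submodule ℝ (Fin 4 → ℝ), finrank ℝ S = 2 → ¬ S ≤ T →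
      (∃ j, bt c j ∈ S ⊓ T) → finrank ℝ (S ⊓ T : Submodule ℝ (Fin 4 → ℝ)) = 1 := by
    intro S T hS hST hj
    obtain ⟨j, hj⟩ := hj
    have h1 : finrank ℝ (S ⊓ T : Submodule ℝ (Fin 4 → ℝ)) < finrank ℝ S :=
      Submodule.finrank_lt_finrank_of_lt (inf_lt_left.2 hST)
    have h2 : 1 ≤ finrank ℝ (S ⊓ T : Submodule ℝ (Fin 4 → ℝ)) :=
      Submodule.one_le_finrank_iff.2 fun h0 => by
        rw [h0, Submodule.mem_bot] at hj
        exact bt_ne hc j hj
    omega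
  have l1 := hline M T1 hr hMT1 ⟨j1, hj1⟩
  have l2 := hline M T2 hr hMT2 (plane_line ha0 hM hT2 hr hr2)
  have l3 := hline T1 T2 hr1 hT12 (plane_line ha0 hT1 hT2 hr1 hr2)
  have hABC : M ⊓ T1 ⊓ T2 = ⊥ := by
    have h1 : finrank ℝ (M ⊓ T1 ⊓ T2 : Submodule ℝ (Fin 4 → ℝ)) <
        finrank ℝ (M ⊓ T1 : Submodule ℝ (Fin 4 → ℝ)) :=
      Submodule.finrank_lt_finrank_of_lt (inf_lt_left.2 fun h => hj12 (h hj1))
    exact Submodule.finrank_eq_zero.1 (by omega)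
  set J := M ⊔ T1 with hJ
  have hJr : finrank ℝ J = 3 := by
    have h1 := Submodule.finrank_sup_add_finrank_inf_eq M T1
    rw [← hJ] at h1
    omega
  have hJ2 : T2 ≤ J := by
    have h1 := Submodule.finrank_sup_add_finrank_inf_eq (M ⊓ T2) (T1 ⊓ T2)
    have h2 : (M ⊓ T2) ⊓ (T1 ⊓ T2) = ⊥ := by
      rw [eq_bot_iff, ← hABC]
      exact le_inf (le_inf (inf_le_left.trans inf_le_left) (inf_le_right.trans inf_le_left))
        (inf_le_left.trans inf_le_right)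
    rw [h2, finrank_bot] at h1
    have h3 : (M ⊓ T2) ⊔ (T1 ⊓ T2) = T2 := by
      refine Submodule.eq_of_le_of_finrank_le (sup_le inf_le_right inf_le_right) ?_
      omega
    rw [← h3]
    exact sup_le (inf_le_left.trans le_sup_left) (inf_le_left.trans le_sup_right)
  obtain ⟨k0, hk0⟩ : ∃ k0 : Fin 4, (Pi.single k0 1 : Fin 4 → ℝ) ∉ J := by
    by_contra hcon
    push Not at hcon
    have h1 : J = ⊤ := by
      rw [eq_top_iff, ← (Pi.basisFun ℝ (Fin 4)).span_eq, Submodule.span_le]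
      rintro _ ⟨k, rfl⟩
      rw [Pi.basisFun_apply]
      exact hcon k
    rw [h1, fr_top] at hJr
    omega
  -- the inequalities
  have g1 := heavy_real ha0 hM
  have g2 := heavy_real ha0 hT1
  have g3 := heavy_real ha0 hT2
  rw [hr, fr_top] at g1
  rw [hr1, fr_top] at g2
  rw [hr2, fr_top] at g3
  push_cast at g1 g2 g3
  have hW := wc_top_le ha0
  have hno : ∀ S, HeavyW c m a ⊤ S → 2 ≤ finrank ℝ S := fun S hS => by
    have := hmin S hS
    omega
  have hG2 : 2 ≤ finrank ℝ (⊤ : Submodule ℝ (Fin 4 → ℝ)) := by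
    rw [fr_top]
    norm_num
  have n1 := line_bound ha0 hc hred hco hno hG2 (le_top (a := M ⊓ T1)) l1.le
  have n2 := line_bound ha0 hc hred hco hno hG2 (le_top (a := M ⊓ T2)) l2.le
  have n3 := line_bound ha0 hc hred hco hno hG2 (le_top (a := T1 ⊓ T2)) l3.le
  rw [fr_top] at n1 n2 n3
  push_cast at n1 n2 n3
  have m1 : (mu c m M : ℝ) + mu c m T1 + mu c m T2 ≤ mu c m J +
      (mu c m (M ⊓ T1) + mu c m (M ⊓ T2) + mu c m (T1 ⊓ T2)) := by
    exact_mod_cast mu_three (c := c) (m := m) (A := M) (B := T1) (C := T2) le_sup_left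
      le_sup_right hJ2
  have m2 : (mu c m (M ⊓ T1) : ℝ) + mu c m (M ⊓ T2) + mu c m (T1 ⊓ T2) ≤ mu c m J := by
    exact_mod_cast mu_lines (c := c) (m := m) hc (A := M) (B := T1) (C := T2) le_sup_left
      le_sup_right hABC
  have m3 : (mu c m J : ℝ) ≤ mu c m ⊤ := by
    exact_mod_cast mu_mono (α := c) (m := m) (le_top (a := J))
  have hMt : (0 : ℝ) ≤ mu c m (⊤ : Submodule ℝ (Fin 4 → ℝ)) := Nat.cast_nonneg _
  have hW0 : (0 : ℝ) ≤ 4 - wc a ⊤ := by linarith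
  have f1 := mul_le_mul_of_nonneg_left m1 hW0
  have f2 := mul_le_mul_of_nonneg_left m2 hW0
  have f3 := mul_le_mul_of_nonneg_left m3 hW0
  have s1 : ∑ k, (iv M k + iv T1 k + iv T2 k) * (1 - 1 / (a k : ℝ)) =
      wc a M + wc a T1 + wc a T2 := by
    rw [wc_iv, wc_iv, wc_iv, ← Finset.sum_add_distrib, ← Finset.sum_add_distrib]
    refine Finset.sum_congr rfl fun k _ => ?_
    unfold wa
    ring
  have s2 : ∑ k, (iv (M ⊓ T1) k + iv (M ⊓ T2) k + iv (T1 ⊓ T2) k) =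
      (cc (M ⊓ T1) : ℝ) + cc (M ⊓ T2) + cc (T1 ⊓ T2) := by
    rw [cc_iv, cc_iv, cc_iv, ← Finset.sum_add_distrib, ← Finset.sum_add_distrib]
  have s3 : ∑ k, (1 : ℝ) / a k = 4 - wc a ⊤ := by
    rw [wc_top]
    unfold wa
    rw [Finset.sum_sub_distrib]
    simp
  have hinf : ∀ (S T : Submodule ℝ (Fin 4 → ℝ)) (k : Fin 4), iv (S ⊓ T) k = iv S k * iv T k := by
    intro S T k
    unfold iv
    simp only [Submodule.mem_inf]
    by_cases h1 : (Pi.single k 1 : Fin 4 → ℝ) ∈ S <;>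
      by_cases h2 : (Pi.single k 1 : Fin 4 → ℝ) ∈ T <;> simp [h1, h2]
  have habc : ∀ k, iv M k * iv T1 k * iv T2 k = 0 := by
    intro k
    rw [← hinf, ← hinf, hABC]
    unfold iv
    rw [if_neg]
    intro h
    rw [Submodule.mem_bot] at h
    have := congrFun h k
    simp at this
  refine num4 (fun k => 1 / (a k : ℝ)) (fun k => iv M k + iv T1 k + iv T2 k)
    (fun k => iv (M ⊓ T1) k + iv (M ⊓ T2) k + iv (T1 ⊓ T2) k) (fun i => ?_) (fun i => ?_)
    (fun i j l h1 h2 h3 => htri i j l h1 h2 h3) (fun k => ?_) k0 ?_ ?_ ?_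
  · have : (0 : ℝ) < a i := by exact_mod_cast ha0 i
    positivity
  · have h1 : (2 : ℝ) ≤ a i := by exact_mod_cast ha i
    exact one_div_le_one_div_of_le (by norm_num) h1
  · have h0 := habc k
    simp only [hinf]
    rcases iv_cases M k with h1 | h1 <;> rcases iv_cases T1 k with h2 | h2 <;>
      rcases iv_cases T2 k with h3 | h3 <;> rw [h1, h2, h3] at h0 <;> rw [h1, h2, h3]
    all_goals first
      | (left; norm_num; done)
      | (right; left; norm_num; done)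
      | (right; right; norm_num; done)
      | (exfalso; norm_num at h0)
  · have h1 : ∀ S : Submodule ℝ (Fin 4 → ℝ), S ≤ J → iv S k0 = 0 := by
      intro S hS
      unfold iv
      exact if_neg fun h => hk0 (hS h)
    simp only [hinf]
    rw [h1 M le_sup_left, h1 T1 le_sup_right, h1 T2 hJ2]
    norm_num
  · rw [s1, s2, s3]
    refine lt_of_mul_lt_mul_left (a := (mu c m (⊤ : Submodule ℝ (Fin 4 → ℝ)) : ℝ)) ?_ hMt
    linarith
  · rw [s1, s3]
    refine lt_of_mul_lt_mul_left (a := (mu c m (⊤ : Submodule ℝ (Fin 4 → ℝ)) : ℝ)) ?_ hMt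
    linarith

end Pool.Agent.T6.H16.RW
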