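import Pool.Agent.T6.H16.RW.E5

set_option autoImplicit false

/-! Three variables, with multiples of at most one coordinate. -/

namespace Pool.Agent.T6.H16.RW

open Pool.Agent.T6.H16.RA

open Module

variable {n : ℕ} {ι : Type} [Fintype ι]
variable {c : ι → Fin n → ℝ} {m : ι → ℕ} {a : Fin n → ℕ} {G : Submodule ℝ (Fin n → ℝ)}

lemma wc_half' (ha : ∀ i, 2 ≤ a i) {S T : Submodule ℝ (Fin n → ℝ)} (hST : S ⊓ T = ⊥) :
    wc a S + wc a T + (n - cc S - cc T) / 2 ≤ wc a (⊤ : Submodule ℝ (Fin n → ℝ)) := by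
  classical
  have h2 : ∀ S : Submodule ℝ (Fin n → ℝ), (cc S : ℝ) = ∑ k : Fin n,
      if (Pi.single k 1 : Fin n → ℝ) ∈ S then (1 : ℝ) else 0 := by
    intro S
    unfold cc
    rw [Finset.sum_ite, Finset.sum_const_zero, add_zero, Finset.sum_const, nsmul_eq_mul, mul_one]
  have h3 : (n : ℝ) = ∑ _k : Fin n, (1 : ℝ) := by simp
  rw [h3, h2, h2, ← Finset.sum_sub_distrib, ← Finset.sum_sub_distrib, Finset.sum_div]
  unfold wc
  rw [← Finset.sum_add_distrib, ← Finset.sum_add_distrib]
  refine Finset.sum_le_sum fun k _ => ?_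
  have h1 := wa_half (ha k)
  rw [if_pos (Submodule.mem_top (R := ℝ) (x := (Pi.single k 1 : Fin n → ℝ)))]
  by_cases h4 : (Pi.single k 1 : Fin n → ℝ) ∈ S
  · by_cases h5 : (Pi.single k 1 : Fin n → ℝ) ∈ T
    · exfalso
      have h6 : (Pi.single k 1 : Fin n → ℝ) ∈ S ⊓ T := ⟨h4, h5⟩
      rw [hST, Submodule.mem_bot] at h6
      have := congrFun h6 k
      simp at this
    · simp only [if_pos h4, if_neg h5]
      linarith
  · by_cases h5 : (Pi.single k 1 : Fin n → ℝ) ∈ T
    · simp only [if_neg h4, if_pos h5]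
      linarith
    · simp only [if_neg h4, if_neg h5]
      linarith

lemma line_coord {S : Submodule ℝ (Fin n → ℝ)} {h : ι} (hh : c h ∈ S) (hS : finrank ℝ S ≤ 1)
    (hcc : cc S ≠ 0) : ∃ (i : Fin n) (t : ℝ), c h = t • Pi.single i 1 := by
  classical
  by_contra hcon
  push Not at hcon
  apply hcc
  unfold cc
  rw [Finset.card_eq_zero, Finset.filter_eq_empty_iff]
  intro i _ hi
  have h1 : Submodule.span ℝ {(Pi.single i 1 : Fin n → ℝ)} = S := by
    refine Submodule.eq_of_le_of_finrank_le ?_ ?_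
    · rw [Submodule.span_singleton_le_iff_mem]
      exact hi
    · rw [finrank_span_singleton (fun h0 => by
        have := congrFun h0 i
        simp at this)]
      exact hS
  rw [← h1, Submodule.mem_span_singleton] at hh
  obtain ⟨t, ht⟩ := hh
  exact hcon i t ht.symm

/-- **At most three variables, multiples of at most one coordinate.** -/
theorem common_le_three' (ha : ∀ i, 2 ≤ a i) (hc : ∀ h, c h ≠ 0)
    (hone : ∀ (h h' : ι) (i i' : Fin n) (t t' : ℝ), c h = t • Pi.single i 1 →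
      c h' = t' • Pi.single i' 1 → i = i') (hn : n ≤ 3)
    (hI : IsIrr (bt c) G) : CommonW c m a G := by
  classical
  have ha0 : ∀ i, 0 < a i := fun i => lt_of_lt_of_le Nat.zero_lt_two (ha i)
  have hG := Submodule.finrank_le G
  rw [finrank_fintype_fun_eq_card, Fintype.card_fin] at hG
  by_cases hG2 : finrank ℝ G ≤ 2
  · exact commonW ha0 hI (nested_two hG2 hc)
  have hG3 : finrank ℝ G = 3 := by omega
  have hn3 : n = 3 := by omega
  have htop : G = ⊤ := by
    refine Submodule.eq_top_of_finrank_eq ?_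
    rw [finrank_fintype_fun_eq_card, Fintype.card_fin, hG3, hn3]
  refine commonW ha0 hI ?_
  intro S T hS hT
  by_contra hcon
  push Not at hcon
  obtain ⟨c1, c2, c3⟩ := hcon
  have r1 : finrank ℝ (S ⊔ T : Submodule ℝ (Fin n → ℝ)) < finrank ℝ G :=
    Submodule.finrank_lt_finrank_of_lt (lt_of_le_of_ne (sup_le hS.1 hT.1) c3)
  have r2 : finrank ℝ S < finrank ℝ (S ⊔ T : Submodule ℝ (Fin n → ℝ)) := by
    refine Submodule.finrank_lt_finrank_of_lt (lt_of_le_of_ne le_sup_left fun h => c2 ?_)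
    rw [h]
    exact le_sup_right
  have r3 : finrank ℝ T < finrank ℝ (S ⊔ T : Submodule ℝ (Fin n → ℝ)) := by
    refine Submodule.finrank_lt_finrank_of_lt (lt_of_le_of_ne le_sup_right fun h => c1 ?_)
    rw [h]
    exact le_sup_left
  have hrk : ∀ S, HeavyW c m a G S → 1 ≤ finrank ℝ S := by
    intro S hS
    obtain ⟨h, hh⟩ := heavy_form hS
    refine Submodule.one_le_finrank_iff.2 fun h0 => ?_
    rw [h0, Submodule.mem_bot] at hh
    exact hc h hh
  have rS : finrank ℝ S = 1 := by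
    have := hrk S hS
    omega
  have rT : finrank ℝ T = 1 := by
    have := hrk T hT
    omega
  have hbot : S ⊓ T = ⊥ := by
    have h1 : finrank ℝ (S ⊓ T : Submodule ℝ (Fin n → ℝ)) < finrank ℝ S :=
      Submodule.finrank_lt_finrank_of_lt (inf_lt_left.2 c1)
    exact Submodule.finrank_eq_zero.1 (by omega)
  obtain ⟨h, hh⟩ := heavy_form hS
  obtain ⟨h', hh'⟩ := heavy_form hT
  have hcc : cc S + cc T ≤ 1 := by
    have q1 := cc_le S
    have q2 := cc_le T
    by_contra hcon
    have q3 : cc S ≠ 0 := by omega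
    have q4 : cc T ≠ 0 := by omega
    obtain ⟨i, t, e1⟩ := line_coord hh rS.le q3
    obtain ⟨i', t', e2⟩ := line_coord hh' rT.le q4
    have e3 := hone h h' i i' t t' e1 e2
    have k1 : (Pi.single i 1 : Fin n → ℝ) ∈ S := by
      have ht : t ≠ 0 := fun h0 => hc h (by rw [e1, h0, zero_smul])
      rw [e1] at hh
      exact (S.smul_mem_iff ht).1 hh
    have k2 : (Pi.single i 1 : Fin n → ℝ) ∈ T := by
      have ht : t' ≠ 0 := fun h0 => hc h' (by rw [e2, h0, zero_smul])
      rw [e2, ← e3] at hh'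
      exact (T.smul_mem_iff ht).1 hh'
    have e4 : (Pi.single i 1 : Fin n → ℝ) ∈ S ⊓ T := ⟨k1, k2⟩
    rw [hbot, Submodule.mem_bot] at e4
    have := congrFun e4 i
    simp at this
  have g1 := heavy_real ha0 hS
  have g2 := heavy_real ha0 hT
  rw [rS, hG3] at g1
  rw [rT, hG3] at g2
  push_cast at g1 g2
  have g3 : (mu c m S : ℝ) + mu c m T ≤ mu c m G := by
    have h6 := mu_super (α := c) (m := m) S T
    rw [hbot, mu_bot hc, zero_add] at h6
    exact_mod_cast h6.trans (mu_mono (sup_le hS.1 hT.1))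
  have g4 := wc_half' ha hbot
  rw [← htop] at g4
  have hn' : (n : ℝ) = 3 := by exact_mod_cast hn3
  rw [hn'] at g4
  have g5 : (cc S : ℝ) + cc T ≤ 1 := by exact_mod_cast hcc
  have g6 : wc a G ≤ 3 := by
    have h1 := wc_le ha0 G
    have h2 : (cc G : ℝ) ≤ 3 := by
      have := cc_le G
      rw [hG3] at this
      exact_mod_cast this
    have h3 := wa_nonneg (PP_pos ha0)
    have h4 := wa_lt (PP_pos ha0)
    have h5 : wa (PP a) * cc G ≤ 1 * 3 :=
      mul_le_mul h4.le h2 (Nat.cast_nonneg _) zero_le_one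
    linarith
  have e1 : (3 - wc a G) * ((mu c m S : ℝ) + mu c m T) ≤ (3 - wc a G) * mu c m G :=
    mul_le_mul_of_nonneg_left g3 (by linarith)
  have e2 : (mu c m G : ℝ) * (3 - wc a G) ≤ mu c m G * (2 - wc a S - wc a T) :=
    mul_le_mul_of_nonneg_left (by linarith) (Nat.cast_nonneg _)
  linarith

end Pool.Agent.T6.H16.RW
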