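import Pool.Agent.T6.H16.RA.A3
import Pool.Agent.T6.H16.RW.D2

set_option autoImplicit false

/-! Test functions on the sectors. -/

namespace Pool.Agent.T6.H16.RW

open Pool.Agent.T6.H16.RA

open MvPolynomial MeasureTheory Set Filter Topology Metric
open scoped ContDiff

variable {n : ℕ}

/-! ### diagonal changes of coordinates -/

/-- the substitution `x_i ↦ z_i x_i` -/
noncomputable def sc (z : Fin n → ℂ) : MvPolynomial (Fin n) ℂ →ₐ[ℂ] MvPolynomial (Fin n) ℂ :=
  aeval fun i => C (z i) * X i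

lemma sc_X (z : Fin n → ℂ) (i : Fin n) : sc z (X i) = C (z i) * X i := by
  unfold sc
  rw [aeval_X]

lemma sc_C (z : Fin n → ℂ) (c : ℂ) : sc z (C c) = C c := by
  unfold sc
  rw [aeval_C]
  rfl

lemma pderiv_sc (z : Fin n → ℂ) (i : Fin n) (p : MvPolynomial (Fin n) ℂ) :
    pderiv i (sc z p) = C (z i) * sc z (pderiv i p) := by
  induction p using MvPolynomial.induction_on with
  | C c => rw [sc_C, pderiv_C, map_zero, mul_zero]
  | add p q hp hq => rw [map_add, map_add, hp, hq, map_add, map_add, mul_add]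
  | mul_X p j hp =>
    have e1 : pderiv i (p * X j) = pderiv i p * X j + p * pderiv i (X j) := pderiv_mul
    have e2 : pderiv i (C (z j) * X j : MvPolynomial (Fin n) ℂ) = C (z j) * pderiv i (X j) := by
      rw [pderiv_mul, pderiv_C, zero_mul, zero_add]
    rw [e1, map_mul, sc_X, pderiv_mul, hp, e2, map_add, map_mul, map_mul, sc_X]
    by_cases hij : j = i
    · subst hij
      rw [pderiv_X_self, map_one]
      ring
    · rw [pderiv_X_of_ne hij, map_zero]
      ring

/-- `ev x (sc z p)` depends only on the coordinates `z_i x_i` -/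
lemma ev_sc_congr {z w : Fin n → ℂ} {x : Fin n → ℝ} (h : ∀ i, z i * x i = w i * x i)
    (p : MvPolynomial (Fin n) ℂ) : ev x (sc z p) = ev x (sc w p) := by
  induction p using MvPolynomial.induction_on with
  | C c => rw [sc_C, sc_C]
  | add p q hp hq => rw [map_add, map_add, map_add, map_add, hp, hq]
  | mul_X p j hp => rw [map_mul, map_mul, map_mul, map_mul, hp, sc_X, sc_X, map_mul, map_mul, ev_C,
      ev_C, ev_X, h j]

/-- the sectors -/
structure Sec (a : Fin n → ℕ) {κ : Type} (ζ : κ → Fin n → ℂ) : Prop where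
  one : ∀ k i, ζ k i ^ a i = 1
  rot : ∀ i, ∃ (σ : κ ≃ κ) (w : ℂ), w ≠ 1 ∧ (∀ k, ζ (σ k) i = w * ζ k i) ∧
    ∀ k j, j ≠ i → ζ (σ k) j = ζ k j

variable {κ : Type} {ζ : κ → Fin n → ℂ} {a : Fin n → ℕ} {K : Set (Fin n → ℝ)}

/-- the generators of the space of the test functions -/
def gens (a : Fin n → ℕ) (ζ : κ → Fin n → ℂ) (K : Set (Fin n → ℝ)) : Set (κ → (Fin n → ℝ) → ℂ) :=
  {g | ∃ (p : MvPolynomial (Fin n) ℂ) (φ : (Fin n → ℝ) → ℂ), IsT K φ ∧
    g = fun k x => ev x (sc (ζ k) p) * φ (pw a x)}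

/-- the space of the test functions -/
def TS (a : Fin n → ℕ) (ζ : κ → Fin n → ℂ) (K : Set (Fin n → ℝ)) :
    Submodule ℂ (κ → (Fin n → ℝ) → ℂ) := Submodule.span ℂ (gens a ζ K)

lemma pw_smooth (a : Fin n → ℕ) : ContDiff ℝ ∞ (pw a) := by
  unfold pw
  exact contDiff_pi.2 fun i => (contDiff_apply ℝ ℝ i).pow (a i)

lemma TS_sm {g : κ → (Fin n → ℝ) → ℂ} (hg : g ∈ TS a ζ K) (k : κ) : ContDiff ℝ ∞ (g k) := by
  unfold TS at hg
  induction hg using Submodule.span_induction with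
  | mem g hg =>
    obtain ⟨p, φ, hφ, rfl⟩ := hg
    exact (ev_smooth _).mul (hφ.sm.comp (pw_smooth a))
  | zero => exact contDiff_const
  | add g h _ _ hg hh => exact hg.add hh
  | smul c g _ hg =>
    show ContDiff ℝ ∞ fun x => c * g k x
    exact contDiff_const.mul hg

lemma TS_su {g : κ → (Fin n → ℝ) → ℂ} (hg : g ∈ TS a ζ K) (k : κ) {x : Fin n → ℝ}
    (hx : pw a x ∉ K) : g k x = 0 := by
  unfold TS at hg
  induction hg using Submodule.span_induction with
  | mem g hg =>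
    obtain ⟨p, φ, hφ, rfl⟩ := hg
    have h1 : φ (pw a x) = 0 := by
      by_contra h0
      exact hx (hφ.su (subset_tsupport φ h0))
    show ev x (sc (ζ k) p) * φ (pw a x) = 0
    rw [h1, mul_zero]
  | zero => rfl
  | add g h _ _ hg hh =>
    show g k x + h k x = 0
    rw [hg, hh, add_zero]
  | smul c g _ hg =>
    show c * g k x = 0
    rw [hg, mul_zero]

lemma pw_compact (ha : ∀ i, 0 < a i) (hK : IsCompact K) : IsCompact (pw a ⁻¹' K) := by
  refine Metric.isCompact_of_isClosed_isBounded (hK.isClosed.preimage (pw_cont a)) ?_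
  obtain ⟨R, hR⟩ := hK.isBounded.exists_norm_le
  refine (isBounded_iff_forall_norm_le).2 ⟨max 1 R, fun x hx => ?_⟩
  refine (pi_norm_le_iff_of_nonneg (le_max_of_le_left zero_le_one)).2 fun i => ?_
  rcases le_or_gt ‖x i‖ 1 with h1 | h1
  · exact h1.trans (le_max_left _ _)
  · refine le_trans ?_ (le_max_right _ _)
    have h2 : ‖x i‖ ≤ ‖x i‖ ^ a i := le_self_pow₀ h1.le (ha i).ne'
    have h3 : ‖pw a x i‖ ≤ ‖pw a x‖ := norm_le_pi_norm _ i
    have h4 : ‖pw a x i‖ = ‖x i‖ ^ a i := norm_pow _ _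
    have h5 : ‖pw a x‖ ≤ R := hR _ hx
    rw [h4] at h3
    linarith

lemma TS_cs (ha : ∀ i, 0 < a i) (hK : IsCompact K) {g : κ → (Fin n → ℝ) → ℂ} (hg : g ∈ TS a ζ K)
    (k : κ) : HasCompactSupport (g k) :=
  HasCompactSupport.intro' (pw_compact ha hK) (pw_compact ha hK).isClosed fun _ hx =>
    TS_su hg k hx

lemma TS_bd {g : κ → (Fin n → ℝ) → ℂ} (hg : g ∈ TS a ζ K) {k l : κ} {x : Fin n → ℝ} {i : Fin n}
    (hx : x i = 0) (h : ∀ j, j ≠ i → ζ k j = ζ l j) : g k x = g l x := by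
  unfold TS at hg
  induction hg using Submodule.span_induction with
  | mem g hg =>
    obtain ⟨p, φ, hφ, rfl⟩ := hg
    show ev x (sc (ζ k) p) * φ (pw a x) = ev x (sc (ζ l) p) * φ (pw a x)
    rw [ev_sc_congr fun j => ?_]
    by_cases hj : j = i
    · rw [hj, hx]
      simp
    · rw [h j hj]
  | zero => rfl
  | add g h _ _ hg hh =>
    show g k x + h k x = g l x + h l x
    rw [hg, hh]
  | smul c g _ hg =>
    show c * g k x = c * g l x
    rw [hg]

/-- the product with a polynomial -/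
noncomputable def mulS (ζ : κ → Fin n → ℂ) (p : MvPolynomial (Fin n) ℂ)
    (g : κ → (Fin n → ℝ) → ℂ) : κ → (Fin n → ℝ) → ℂ := fun k x => ev x (sc (ζ k) p) * g k x

lemma mulS_mul (p q : MvPolynomial (Fin n) ℂ) (g : κ → (Fin n → ℝ) → ℂ) :
    mulS ζ (p * q) g = mulS ζ p (mulS ζ q g) := by
  funext k x
  unfold mulS
  rw [map_mul, map_mul, mul_assoc]

lemma mulS_add (p q : MvPolynomial (Fin n) ℂ) (g : κ → (Fin n → ℝ) → ℂ) :
    mulS ζ (p + q) g = mulS ζ p g + mulS ζ q g := by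
  funext k x
  show ev x (sc (ζ k) (p + q)) * g k x = ev x (sc (ζ k) p) * g k x + ev x (sc (ζ k) q) * g k x
  rw [map_add, map_add, add_mul]

lemma mulS_smul (c : ℂ) (p : MvPolynomial (Fin n) ℂ) (g : κ → (Fin n → ℝ) → ℂ) :
    mulS ζ (c • p) g = c • mulS ζ p g := by
  funext k x
  show ev x (sc (ζ k) (c • p)) * g k x = c * (ev x (sc (ζ k) p) * g k x)
  rw [map_smul, map_smul, smul_eq_mul, mul_assoc]

lemma mulS_add' (p : MvPolynomial (Fin n) ℂ) (g h : κ → (Fin n → ℝ) → ℂ) :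
    mulS ζ p (g + h) = mulS ζ p g + mulS ζ p h := by
  funext k x
  show ev x (sc (ζ k) p) * (g k x + h k x) = ev x (sc (ζ k) p) * g k x + ev x (sc (ζ k) p) * h k x
  rw [mul_add]

lemma mulS_smul' (c : ℂ) (p : MvPolynomial (Fin n) ℂ) (g : κ → (Fin n → ℝ) → ℂ) :
    mulS ζ p (c • g) = c • mulS ζ p g := by
  funext k x
  show ev x (sc (ζ k) p) * (c * g k x) = c * (ev x (sc (ζ k) p) * g k x)
  ring

lemma mulS_one (g : κ → (Fin n → ℝ) → ℂ) : mulS ζ 1 g = g := by
  funext k x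
  unfold mulS
  rw [map_one, map_one, one_mul]

lemma TS_mulS (p : MvPolynomial (Fin n) ℂ) {g : κ → (Fin n → ℝ) → ℂ} (hg : g ∈ TS a ζ K) :
    mulS ζ p g ∈ TS a ζ K := by
  unfold TS at hg
  induction hg using Submodule.span_induction with
  | mem g hg =>
    obtain ⟨q, φ, hφ, rfl⟩ := hg
    refine Submodule.subset_span ⟨p * q, φ, hφ, ?_⟩
    funext k x
    unfold mulS
    rw [map_mul, map_mul, mul_assoc]
  | zero =>
    have : mulS ζ p (0 : κ → (Fin n → ℝ) → ℂ) = 0 := by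
      funext k x
      exact mul_zero _
    rw [this]
    exact Submodule.zero_mem _
  | add g h _ _ hg hh =>
    rw [mulS_add']
    exact Submodule.add_mem _ hg hh
  | smul c g _ hg =>
    rw [mulS_smul']
    exact Submodule.smul_mem _ c hg

/-- the derivative -/
noncomputable def dz (ζ : κ → Fin n → ℂ) (i : Fin n) (g : κ → (Fin n → ℝ) → ℂ) :
    κ → (Fin n → ℝ) → ℂ := fun k x => (ζ k i)⁻¹ * dg i (g k) x

lemma TS_dz (ha : ∀ i, 0 < a i) (hζ : ∀ k i, ζ k i ^ a i = 1) (i : Fin n) {g : κ → (Fin n → ℝ) → ℂ}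
    (hg : g ∈ TS a ζ K) : dz ζ i g ∈ TS a ζ K := by
  have hg' := hg
  unfold TS at hg
  induction hg using Submodule.span_induction with
  | mem g hg =>
    obtain ⟨p, φ, hφ, rfl⟩ := hg
    have h1 : (fun (k : κ) x => ev x (sc (ζ k) (pderiv i p)) * φ (pw a x)) ∈ TS a ζ K :=
      Submodule.subset_span ⟨_, φ, hφ, rfl⟩
    have h2 : (fun (k : κ) x => ev x (sc (ζ k) (C (a i : ℂ) * X i ^ (a i - 1) * p)) *
        dg i φ (pw a x)) ∈ TS a ζ K := Submodule.subset_span ⟨_, dg i φ, hφ.dg i, rfl⟩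
    refine (congrArg (· ∈ TS a ζ K) ?_).mp (Submodule.add_mem _ h1 h2)
    funext k x
    show ev x (sc (ζ k) (pderiv i p)) * φ (pw a x) +
      ev x (sc (ζ k) (C (a i : ℂ) * X i ^ (a i - 1) * p)) * dg i φ (pw a x) =
      (ζ k i)⁻¹ * fderiv ℝ (fun x => ev x (sc (ζ k) p) * φ (pw a x)) x (Pi.single i 1)
    have hz : ζ k i ≠ 0 := by
      intro h0
      have := hζ k i
      rw [h0, zero_pow (ha i).ne'] at this
      exact zero_ne_one this
    have e1 : fderiv ℝ (fun x => ev x (sc (ζ k) p)) x (Pi.single i 1) =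
        ev x (pderiv i (sc (ζ k) p)) := by
      have h3 := ((ev_smooth (sc (ζ k) p)).differentiable (by simp)).differentiableAt (x := x)
      exact h3.hasFDerivAt.hasLineDerivAt (Pi.single i 1) |>.unique (ev_line (sc (ζ k) p) x i)
    have e2 : HasFDerivAt (fun x => φ (pw a x)) ((fderiv ℝ φ (pw a x)).comp (dpw a x)) x := by
      have h3 := ((hφ.sm.differentiable (by simp)).differentiableAt (x := pw a x)).hasFDerivAt
      exact h3.comp x ((pw_deriv a x univ).hasFDerivAt univ_mem)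
    have h3 := ((ev_smooth (sc (ζ k) p)).differentiable (by simp)).differentiableAt (x := x)
    have h5 : fderiv ℝ (fun x => ev x (sc (ζ k) p) * φ (pw a x)) x =
        ev x (sc (ζ k) p) • fderiv ℝ (fun x => φ (pw a x)) x +
        φ (pw a x) • fderiv ℝ (fun x => ev x (sc (ζ k) p)) x :=
      fderiv_fun_mul h3 e2.differentiableAt
    have e3 : dpw a x (Pi.single i 1) = ((a i : ℝ) * x i ^ (a i - 1)) • (Pi.single i 1 : Fin n → ℝ) := by
      funext j
      show ((a j : ℝ) * x j ^ (a j - 1)) * (Pi.single i 1 : Fin n → ℝ) j = _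
      rw [Pi.smul_apply, smul_eq_mul]
      by_cases hj : j = i
      · rw [hj]
      · rw [Pi.single_eq_of_ne hj, mul_zero, mul_zero]
    rw [h5]
    simp only [ContinuousLinearMap.add_apply, ContinuousLinearMap.smul_apply, smul_eq_mul]
    rw [e1, e2.fderiv, ContinuousLinearMap.comp_apply, e3, map_smul, pderiv_sc]
    simp only [map_mul, ev_C, sc_C, map_pow, sc_X, ev_X]
    have e4 : (ζ k i)⁻¹ = ζ k i ^ (a i - 1) := by
      have h6 : ζ k i ^ (a i - 1) * ζ k i = 1 := by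
        rw [← pow_succ, Nat.sub_add_cancel (ha i), hζ]
      exact (eq_inv_of_mul_eq_one_left h6).symm
    have e5 : ((a i : ℝ) * x i ^ (a i - 1)) • fderiv ℝ φ (pw a x) (Pi.single i 1) =
        ((a i : ℂ) * (x i : ℂ) ^ (a i - 1)) * dg i φ (pw a x) := by
      rw [Complex.real_smul]
      push_cast
      rfl
    rw [e5, mul_pow]
    have e6 : (ζ k i)⁻¹ * ζ k i = 1 := inv_mul_cancel₀ hz
    have e7 : (ζ k i)⁻¹ * (ev x (sc (ζ k) p) * (↑(a i) * ↑(x i) ^ (a i - 1) * dg i φ (pw a x)) +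
        φ (pw a x) * (ζ k i * ev x (sc (ζ k) ((pderiv i) p)))) =
        (ζ k i)⁻¹ * (ev x (sc (ζ k) p) * (↑(a i) * ↑(x i) ^ (a i - 1) * dg i φ (pw a x))) +
        ((ζ k i)⁻¹ * ζ k i) * (φ (pw a x) * (ev x (sc (ζ k) ((pderiv i) p)))) := by ring
    rw [e7, e6, e4]
    ring
  | zero =>
    have : dz ζ i (0 : κ → (Fin n → ℝ) → ℂ) = 0 := by
      funext k x
      show (ζ k i)⁻¹ * fderiv ℝ (fun _ => (0 : ℂ)) x (Pi.single i 1) = 0
      simp
    rw [this]
    exact Submodule.zero_mem _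
  | add g h hg1 hh1 hg hh =>
    have : dz ζ i (g + h) = dz ζ i g + dz ζ i h := by
      funext k x
      show (ζ k i)⁻¹ * fderiv ℝ (g k + h k) x (Pi.single i 1) =
        (ζ k i)⁻¹ * fderiv ℝ (g k) x (Pi.single i 1) + (ζ k i)⁻¹ * fderiv ℝ (h k) x (Pi.single i 1)
      have h3 := ((TS_sm hg1 k).differentiable (by simp)).differentiableAt (x := x)
      have h4 := ((TS_sm hh1 k).differentiable (by simp)).differentiableAt (x := x)
      rw [fderiv_add h3 h4, ContinuousLinearMap.add_apply, mul_add]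
    rw [this]
    exact Submodule.add_mem _ (hg hg1) (hh hh1)
  | smul c g hg1 hg =>
    have : dz ζ i (c • g) = c • dz ζ i g := by
      funext k x
      show (ζ k i)⁻¹ * fderiv ℝ (c • g k) x (Pi.single i 1) =
        c * ((ζ k i)⁻¹ * fderiv ℝ (g k) x (Pi.single i 1))
      have h3 := ((TS_sm hg1 k).differentiable (by simp)).differentiableAt (x := x)
      rw [fderiv_const_smul h3, ContinuousLinearMap.smul_apply, smul_eq_mul]
      ring
    rw [this]
    exact Submodule.smul_mem _ c (hg hg1)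

/-- the product rule -/
lemma dz_mulS (hζ : ∀ k i, ζ k i ≠ 0) (i : Fin n) (p : MvPolynomial (Fin n) ℂ)
    {g : κ → (Fin n → ℝ) → ℂ} (hg : g ∈ TS a ζ K) :
    dz ζ i (mulS ζ p g) = mulS ζ (pderiv i p) g + mulS ζ p (dz ζ i g) := by
  funext k x
  show (ζ k i)⁻¹ * fderiv ℝ (fun x => ev x (sc (ζ k) p) * g k x) x (Pi.single i 1) =
    ev x (sc (ζ k) (pderiv i p)) * g k x +
      ev x (sc (ζ k) p) * ((ζ k i)⁻¹ * fderiv ℝ (g k) x (Pi.single i 1))
  have e1 : fderiv ℝ (fun x => ev x (sc (ζ k) p)) x (Pi.single i 1) =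
      ev x (pderiv i (sc (ζ k) p)) := by
    have h3 := ((ev_smooth (sc (ζ k) p)).differentiable (by simp)).differentiableAt (x := x)
    exact h3.hasFDerivAt.hasLineDerivAt (Pi.single i 1) |>.unique (ev_line (sc (ζ k) p) x i)
  have h3 := ((ev_smooth (sc (ζ k) p)).differentiable (by simp)).differentiableAt (x := x)
  have h4 := ((TS_sm hg k).differentiable (by simp)).differentiableAt (x := x)
  have h5 : fderiv ℝ (fun x => ev x (sc (ζ k) p) * g k x) x =
      ev x (sc (ζ k) p) • fderiv ℝ (g k) x + g k x • fderiv ℝ (fun x => ev x (sc (ζ k) p)) x :=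
    fderiv_fun_mul h3 h4
  rw [h5]
  simp only [ContinuousLinearMap.add_apply, ContinuousLinearMap.smul_apply, smul_eq_mul]
  rw [e1, pderiv_sc, map_mul, ev_C]
  have e6 : (ζ k i)⁻¹ * ζ k i = 1 := inv_mul_cancel₀ (hζ k i)
  linear_combination (g k x * ev x (sc (ζ k) ((pderiv i) p))) * e6

end Pool.Agent.T6.H16.RW
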