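import Pool.Agent.T6.H16.RW.H2

set_option autoImplicit false

/-! The adjoint operators on the sectors, and the functional equation. -/

namespace Pool.Agent.T6.H16.RW

open Pool.Agent.T6.H16.RA

open MvPolynomial MeasureTheory Set Filter Topology
open scoped ContDiff
open Pool.Agent.H628R4.TP (weylS IsBFunction)

variable {n : ℕ} {κ : Type} [Fintype κ] {ζ : κ → Fin n → ℂ} {a : Fin n → ℕ} {K : Set (Fin n → ℝ)}
  {f : MvPolynomial (Fin n) ℝ} {U : Set (Fin n → ℝ)}

/-- the property of the operators -/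
def AdjS (f : MvPolynomial (Fin n) ℝ) (U : Set (Fin n → ℝ)) (a : Fin n → ℕ) (ζ : κ → Fin n → ℂ)
    (K : Set (Fin n → ℝ)) (Q : Module.End ℂ (MvPolynomial (Fin n) ℂ)) : Prop :=
  ∃ (M : ℕ) (A : (κ → (Fin n → ℝ) → ℂ) → (κ → (Fin n → ℝ) → ℂ)),
    (∀ g, g ∈ TS a ζ K → A g ∈ TS a ζ K) ∧
    ∀ (j : ℕ), ∀ p ∈ PS n, ∃ q ∈ PS n,
      (∀ s : ℕ, j + M ≤ s → Q (cx f ^ (s - j) * p s) = cx f ^ (s - j - M) * q s) ∧
      ∀ s : ℝ, (j + M + 1 : ℝ) < s → ∀ g, g ∈ TS a ζ K →
        PT f U (s - j - M) (mulS ζ (q s) g) = PT f U (s - j) (mulS ζ (p s) (A g))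

lemma adjS_C (c : ℂ) : AdjS f U a ζ K (algebraMap ℂ _ c) := by
  refine ⟨0, fun g => c • g, fun g hg => Submodule.smul_mem _ c hg, fun j p hp =>
    ⟨fun s => c • p s, (PS n).smul_mem c hp, fun s hs => ?_, fun s hs g hg => ?_⟩⟩
  · rw [Module.algebraMap_end_apply, Nat.sub_zero, mul_smul_comm]
  · rw [Nat.cast_zero, sub_zero, mulS_smul, mulS_smul']

lemma adjS_X (i : Fin n) :
    AdjS f U a ζ K (LinearMap.mulLeft ℂ (X i : MvPolynomial (Fin n) ℂ)) := by
  refine ⟨0, fun g => mulS ζ (X i) g, fun g hg => TS_mulS _ hg, fun j p hp =>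
    ⟨fun s => X i * p s, PS_mul (X i) hp, fun s hs => ?_, fun s hs g hg => ?_⟩⟩
  · rw [LinearMap.mulLeft_apply, Nat.sub_zero, mul_left_comm]
  · rw [Nat.cast_zero, sub_zero]
    show PT f U (s - j) (mulS ζ (X i * p s) g) = PT f U (s - j) (mulS ζ (p s) (mulS ζ (X i) g))
    rw [mul_comm (X i), mulS_mul]

lemma adjS_D (hf : Reg f U) (hi : Inv ζ f) (ha : ∀ i, 0 < a i) (hS : Sec a ζ) (hK : IsCompact K)
    (i : Fin n) :
    AdjS f U a ζ K ((pderiv i : Derivation ℂ (MvPolynomial (Fin n) ℂ)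
      (MvPolynomial (Fin n) ℂ)) : MvPolynomial (Fin n) ℂ →ₗ[ℂ] MvPolynomial (Fin n) ℂ) := by
  have hz : ∀ k i, ζ k i ≠ 0 := by
    intro k i h0
    have := hS.one k i
    rw [h0, zero_pow (ha i).ne'] at this
    exact zero_ne_one this
  refine ⟨1, fun g => (-1 : ℂ) • dz ζ i g, fun g hg =>
    Submodule.smul_mem _ _ (TS_dz ha hS.one i hg), fun j p hp => ?_⟩
  have hq : (fun s : ℂ => (s - j) • (cx (pderiv i f) * p s) + cx f * pderiv i (p s)) ∈ PS n := by
    have h1 := PS_mul (cx (pderiv i f)) hp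
    have h2 := PS_s h1
    have h3 := (PS n).smul_mem (-(j : ℂ)) h1
    have h4 := PS_mul (cx f) (PS_lin ((pderiv i : Derivation ℂ _ _) : _ →ₗ[ℂ] _) hp)
    have h5 := PS_add (PS_add h2 h3) h4
    refine (congrArg (· ∈ PS n) (funext fun s => ?_)).mp h5
    simp only [Pi.smul_apply, sub_smul, neg_smul, Derivation.coeFn_coe]
    ring
  refine ⟨_, hq, fun s hs => ?_, fun s hs g hg => ?_⟩
  · obtain ⟨k, hk⟩ : ∃ k, s - j = k + 1 := ⟨s - j - 1, by omega⟩
    have hk' : s - j - 1 = k := by omega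
    have hsj : ((s : ℂ) - j) = (k + 1 : ℕ) := by
      have : s = k + 1 + j := by omega
      rw [this]
      push_cast
      ring
    simp only [Derivation.coeFn_coe]
    rw [hk', hk, Derivation.leibniz, Derivation.leibniz_pow, pderiv_cx, hsj]
    simp only [smul_eq_mul, Nat.add_sub_cancel, nsmul_eq_mul, MvPolynomial.smul_eq_C_mul,
      map_natCast]
    push_cast
    ring
  · have hs' : (1 : ℝ) < s - j := by push_cast at hs; linarith
    have hs1 : (0 : ℝ) < s - j - 1 := by linarith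
    have h1 := partsS hf hi ha hS hK hs' (TS_mulS (p s) hg) i
    rw [dz_mulS hz i (p s) hg, PT_add hf ha hK (by linarith) (TS_mulS _ hg)
      (TS_mulS _ (TS_dz ha hS.one i hg)), ← mulS_mul] at h1
    have h2 : PT f U (s - j - 1) (mulS ζ (cx f * pderiv i (p s)) g) =
        PT f U (s - j) (mulS ζ (pderiv i (p s)) g) := by
      have h3 := PT_absorb (U := U) hf hi (s - j) 1 (mulS ζ (pderiv i (p s)) g)
      rw [Nat.cast_one, pow_one, ← mulS_mul] at h3
      exact h3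
    rw [Nat.cast_one, mulS_add, PT_add hf ha hK hs1 (TS_mulS _ hg) (TS_mulS _ hg), h2,
      mulS_smul', PT_smul]
    have h4 : ((s : ℂ) - j) • (cx (pderiv i f) * p s) =
        (((s - j : ℝ) : ℂ) • cx (pderiv i f)) * p s := by
      rw [smul_mul_assoc]
      push_cast
      rfl
    rw [h4]
    linear_combination h1

lemma adjS_add (hf : Reg f U) (hi : Inv ζ f) (ha : ∀ i, 0 < a i) (hK : IsCompact K)
    {Q R : Module.End ℂ (MvPolynomial (Fin n) ℂ)}
    (hQ : AdjS f U a ζ K Q) (hR : AdjS f U a ζ K R) : AdjS f U a ζ K (Q + R) := by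
  obtain ⟨M₁, A₁, hA₁, h₁⟩ := hQ
  obtain ⟨M₂, A₂, hA₂, h₂⟩ := hR
  refine ⟨M₁ + M₂, fun g => A₁ g + A₂ g, fun g hg => Submodule.add_mem _ (hA₁ g hg) (hA₂ g hg),
    fun j p hp => ?_⟩
  obtain ⟨q₁, hq₁, n₁, i₁⟩ := h₁ j p hp
  obtain ⟨q₂, hq₂, n₂, i₂⟩ := h₂ j p hp
  refine ⟨fun s => cx f ^ M₂ * q₁ s + cx f ^ M₁ * q₂ s,
    PS_add (PS_mul _ hq₁) (PS_mul _ hq₂), fun s hs => ?_, fun s hs g hg => ?_⟩
  · rw [LinearMap.add_apply, n₁ s (by omega), n₂ s (by omega), mul_add, ← mul_assoc, ← mul_assoc,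
      ← pow_add, ← pow_add]
    congr 3
    · congr 1
      omega
    · congr 1
      omega
  · push_cast at hs ⊢
    have hs1 := i₁ s (by have : (0 : ℝ) ≤ M₂ := by positivity
                         linarith) g hg
    have hs2 := i₂ s (by have : (0 : ℝ) ≤ M₁ := by positivity
                         linarith) g hg
    have p1 : (0 : ℝ) < s - j - (M₁ + M₂) := by linarith
    have p2 : (0 : ℝ) < s - j := by
      have : (0 : ℝ) ≤ M₁ := by positivity
      have : (0 : ℝ) ≤ M₂ := by positivity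
      linarith
    have e2 : PT f U (s - j - (M₁ + M₂)) (mulS ζ (cx f ^ M₂ * q₁ s) g) =
        PT f U (s - j - M₁) (mulS ζ (q₁ s) g) := by
      have h6 := PT_absorb (U := U) hf hi (s - j - M₁) M₂ (mulS ζ (q₁ s) g)
      rw [show s - j - M₁ - M₂ = s - j - (M₁ + M₂) by ring, ← mulS_mul] at h6
      exact h6
    have e3 : PT f U (s - j - (M₁ + M₂)) (mulS ζ (cx f ^ M₁ * q₂ s) g) =
        PT f U (s - j - M₂) (mulS ζ (q₂ s) g) := by
      have h6 := PT_absorb (U := U) hf hi (s - j - M₂) M₁ (mulS ζ (q₂ s) g)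
      rw [show s - j - M₂ - M₁ = s - j - (M₁ + M₂) by ring, ← mulS_mul] at h6
      exact h6
    rw [mulS_add, PT_add hf ha hK p1 (TS_mulS _ hg) (TS_mulS _ hg), e2, e3, hs1, hs2,
      ← PT_add hf ha hK p2 (TS_mulS _ (hA₁ g hg)) (TS_mulS _ (hA₂ g hg)), ← mulS_add']

lemma adjS_mul {Q R : Module.End ℂ (MvPolynomial (Fin n) ℂ)}
    (hQ : AdjS f U a ζ K Q) (hR : AdjS f U a ζ K R) : AdjS f U a ζ K (Q * R) := by
  obtain ⟨M₁, A₁, hA₁, h₁⟩ := hQ
  obtain ⟨M₂, A₂, hA₂, h₂⟩ := hR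
  refine ⟨M₁ + M₂, fun g => A₂ (A₁ g), fun g hg => hA₂ _ (hA₁ g hg), fun j p hp => ?_⟩
  obtain ⟨q₂, hq₂, n₂, i₂⟩ := h₂ j p hp
  obtain ⟨q₁, hq₁, n₁, i₁⟩ := h₁ (j + M₂) q₂ hq₂
  refine ⟨q₁, hq₁, fun s hs => ?_, fun s hs g hg => ?_⟩
  · rw [Module.End.mul_apply, n₂ s (by omega)]
    have h3 := n₁ s (by omega)
    rw [show s - (j + M₂) = s - j - M₂ by omega] at h3
    rw [h3]
    congr 2
    omega
  · push_cast at hs
    have h3 := i₁ s (by push_cast; linarith) g hg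
    have h4 := i₂ s (by have : (0 : ℝ) ≤ M₁ := by positivity
                        linarith) (A₁ g) (hA₁ g hg)
    push_cast at h3 ⊢
    rw [show s - (j + M₂ : ℝ) = s - j - M₂ by ring] at h3
    rw [show s - j - (M₁ + M₂ : ℝ) = s - j - M₂ - M₁ by ring, h3, h4]

theorem adjS_weyl (hf : Reg f U) (hi : Inv ζ f) (ha : ∀ i, 0 < a i) (hS : Sec a ζ) (hK : IsCompact K)
    (Q : weylS (Fin n)) : AdjS f U a ζ K (Q : Module.End ℂ (MvPolynomial (Fin n) ℂ)) := by
  obtain ⟨Q, hQ⟩ := Q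
  show AdjS f U a ζ K Q
  unfold weylS at hQ
  induction hQ using Algebra.adjoin_induction with
  | mem Q hQ =>
    rcases hQ with ⟨i, rfl⟩ | ⟨i, rfl⟩
    · exact adjS_X i
    · exact adjS_D hf hi ha hS hK i
  | algebraMap c => exact adjS_C c
  | add Q R _ _ hQ hR => exact adjS_add hf hi ha hK hQ hR
  | mul Q R _ _ hQ hR => exact adjS_mul hQ hR

lemma PS_pe' (P : Polynomial ℂ) {q : ℂ → MvPolynomial (Fin n) ℂ} (hq : q ∈ PS n) :
    (fun s => P.eval s • q s) ∈ PS n := by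
  induction P using Polynomial.induction_on' with
  | add P Q hP hQ =>
    simp only [Polynomial.eval_add, add_smul]
    exact PS_add hP hQ
  | monomial k a =>
    have h : ∀ k : ℕ, (fun s : ℂ => s ^ k • q s) ∈ PS n := by
      intro k
      induction k with
      | zero => simpa using hq
      | succ k ih =>
        have h := PS_s ih
        simp only [smul_smul, ← pow_succ'] at h
        exact h
    have h1 := (PS n).smul_mem a (h k)
    refine (congrArg (· ∈ PS n) (funext fun s => ?_)).mp h1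
    rw [Pi.smul_apply, Polynomial.eval_monomial, smul_smul]

theorem real_eqS (hf : Reg f U) (hi : Inv ζ f) (ha : ∀ i, 0 < a i) (hS : Sec a ζ) (hK : IsCompact K)
    (hf0 : cx f ≠ 0) {b : Polynomial ℂ} (hb : IsBFunction (cx f) b) :
    ∃ (S : Finset ℕ) (A : ℕ → (κ → (Fin n → ℝ) → ℂ) → (κ → (Fin n → ℝ) → ℂ)) (M : ℝ), 0 < M ∧
      (∀ m g, g ∈ TS a ζ K → A m g ∈ TS a ζ K) ∧ ∀ t : ℝ, M < t → ∀ g, g ∈ TS a ζ K →
        b.eval (t : ℂ) * PT f U t g = ∑ m ∈ S, (t : ℂ) ^ m * PT f U (t + 1) (A m g) := by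
  obtain ⟨P, hP⟩ := hb
  choose Mm A hA hm using fun m : ℕ => adjS_weyl hf hi ha hS hK (P m)
  choose q hq hnat hint using fun m : ℕ => hm m 0 (fun _ => 1) (PS_const 1)
  set M : ℕ := 1 + ∑ m ∈ P.support, Mm m with hM
  have hMm : ∀ m ∈ P.support, Mm m ≤ M := fun m hm => by
    have := Finset.single_le_sum (f := Mm) (fun i _ => Nat.zero_le _) hm
    omega
  -- the polynomial identity
  have key : ∀ s : ℂ, (b.comp (Polynomial.X - 1)).eval s • cx f ^ (M - 1) =
      ∑ m ∈ P.support, ((Polynomial.X - 1 : Polynomial ℂ) ^ m).eval s •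
        (cx f ^ (M - Mm m) * q m s) := by
    have h1 : (fun s => (b.comp (Polynomial.X - 1)).eval s • cx f ^ (M - 1) -
        ∑ m ∈ P.support, ((Polynomial.X - 1 : Polynomial ℂ) ^ m).eval s •
          (cx f ^ (M - Mm m) * q m s)) ∈ PS n := by
      have h2 : (fun s => ∑ m ∈ P.support, ((Polynomial.X - 1 : Polynomial ℂ) ^ m).eval s •
          (cx f ^ (M - Mm m) * q m s)) ∈ PS n := by
        have h3 : ∀ m ∈ P.support, (fun s => ((Polynomial.X - 1 : Polynomial ℂ) ^ m).eval s •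
          (cx f ^ (M - Mm m) * q m s)) ∈ PS n := fun m _ => PS_pe' _ (PS_mul _ (hq m))
        have h4 := (PS n).sum_mem h3
        refine (congrArg (· ∈ PS n) (funext fun s => ?_)).mp h4
        rw [Finset.sum_apply]
      exact (PS n).sub_mem (PS_pe' _ (PS_const _)) h2
    intro s
    refine sub_eq_zero.1 (PS_zero h1 M (fun s hs => ?_) s)
    obtain ⟨t, rfl⟩ : ∃ t, s = t + 1 := ⟨s - 1, by omega⟩
    have h5 := hP t
    rw [Finsupp.sum] at h5
    have h6 : cx f ^ (t + 1 - M) * ((b.comp (Polynomial.X - 1)).eval (((t + 1 : ℕ) : ℂ)) •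
        cx f ^ (M - 1) - ∑ m ∈ P.support, ((Polynomial.X - 1 : Polynomial ℂ) ^ m).eval
          (((t + 1 : ℕ) : ℂ)) • (cx f ^ (M - Mm m) * q m ((t + 1 : ℕ) : ℂ))) = 0 := by
      have e1 : (((t + 1 : ℕ) : ℂ)) - 1 = t := by push_cast; ring
      simp only [Polynomial.eval_comp, Polynomial.eval_sub, Polynomial.eval_X, Polynomial.eval_one,
        Polynomial.eval_pow, e1]
      rw [mul_sub, Finset.mul_sum, sub_eq_zero, mul_smul_comm, ← pow_add,
        show t + 1 - M + (M - 1) = t by omega, smul_eq_C_mul, h5]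
      refine Finset.sum_congr rfl fun m hm => ?_
      have h7 := hnat m (t + 1) (by have := hMm m hm; omega)
      rw [mul_one, Nat.sub_zero] at h7
      rw [h7, mul_smul_comm, ← mul_assoc, ← pow_add]
      congr 3
      have := hMm m hm
      omega
    exact (mul_eq_zero.1 h6).resolve_left (pow_ne_zero _ hf0)
  refine ⟨P.support, A, M, ?_, hA, fun t ht g hg => ?_⟩
  · have : 0 < M := by omega
    exact_mod_cast this
  -- pointwise
  have hpt : ∀ x, ∀ k, b.eval (t : ℂ) * (Fs f U t x : ℂ) =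
      ∑ m ∈ P.support, (t : ℂ) ^ m *
        ((Fs f U (t + 1 - Mm m) x : ℂ) * ev x (sc (ζ k) (q m ((t + 1 : ℝ) : ℂ)))) := by
    intro x k
    have h1 := congrArg (fun p => ev x (sc (ζ k) p)) (key ((t + 1 : ℝ) : ℂ))
    have e1 : (((t + 1 : ℝ) : ℂ)) - 1 = t := by push_cast; ring
    simp only [Polynomial.eval_comp, Polynomial.eval_sub, Polynomial.eval_X, Polynomial.eval_one,
      Polynomial.eval_pow, e1, map_smul, smul_eq_mul, map_sum, map_mul, map_pow, hi k] at h1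
    have h2 := congrArg (fun z => (Fs f U (t + 1 - M) x : ℂ) * z) h1
    have e2 : (Fs f U (t + 1 - M) x : ℂ) * (ev x (cx f)) ^ (M - 1) = (Fs f U t x : ℂ) := by
      have h3 := Fs_mul' hf t (M - 1) x
      have h4 : t - ((M - 1 : ℕ) : ℝ) = t + 1 - M := by
        rw [Nat.cast_sub (by omega)]
        push_cast
        ring
      rwa [h4, map_pow] at h3
    rw [← e2]
    rw [mul_left_comm] at h2
    rw [h2, Finset.mul_sum]
    refine Finset.sum_congr rfl fun m hm => ?_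
    have h3 := Fs_mul' hf (t + 1 - Mm m) (M - Mm m) x
    have h4 : t + 1 - (Mm m : ℝ) - ((M - Mm m : ℕ) : ℝ) = t + 1 - M := by
      rw [Nat.cast_sub (hMm m hm)]
      ring
    rw [h4, map_pow] at h3
    rw [← h3]
    ring
  have hMr : ∀ m ∈ P.support, (Mm m : ℝ) ≤ M := fun m hm => by exact_mod_cast hMm m hm
  have hR : ∑ m ∈ P.support, (t : ℂ) ^ m * PT f U (t + 1) (A m g) =
      ∑ m ∈ P.support, (t : ℂ) ^ m *
        PT f U (t + 1 - Mm m) (mulS ζ (q m ((t + 1 : ℝ) : ℂ)) g) := by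
    refine Finset.sum_congr rfl fun m hm => ?_
    have h1 := hint m (t + 1) (by
      have := hMr m hm
      push_cast
      linarith) g hg
    rw [Nat.cast_zero, sub_zero, mulS_one] at h1
    rw [h1]
  rw [hR]
  unfold PT
  simp only [Finset.mul_sum]
  rw [Finset.sum_comm]
  refine Finset.sum_congr rfl fun k _ => ?_
  rw [← integral_const_mul]
  have e3 : ∫ x in Pos n, b.eval (t : ℂ) * ((Fs f U t x : ℂ) * g k x) =
      ∫ x in Pos n, ∑ m ∈ P.support, (t : ℂ) ^ m * ((Fs f U (t + 1 - Mm m) x : ℂ) *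
        mulS ζ (q m ((t + 1 : ℝ) : ℂ)) g k x) := by
    refine integral_congr_ae (Eventually.of_forall fun x => ?_)
    simp only
    rw [← mul_assoc, hpt x k, Finset.sum_mul]
    refine Finset.sum_congr rfl fun m _ => ?_
    unfold mulS
    ring
  rw [e3, integral_finsetSum]
  · refine Finset.sum_congr rfl fun m hm => ?_
    rw [integral_const_mul]
  · intro m hm
    have := hMr m hm
    exact (PT_int hf ha hK (by linarith) (TS_mulS _ hg) k).integrableOn.const_mul _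

end Pool.Agent.T6.H16.RW
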