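import Pool.Agent.T6.H16.RW.H3
import Pool.Agent.T6.H16.RW.D4

set_option autoImplicit false

/-! The divergence of the integral over a part of the positive orthant gives a root. -/

namespace Pool.Agent.T6.H16.RW

open Pool.Agent.T6.H16.RA

open MvPolynomial MeasureTheory Set Filter Topology Metric
open scoped ContDiff
open Pool.Agent.H628R4.TP (weylS IsBFunction)

section
variable {n : ℕ} {f : MvPolynomial (Fin n) ℝ} {U K : Set (Fin n → ℝ)}

/-- the integral with a nonnegative weight is analytic -/
lemma ana_posS (hf : Reg f U) (hKm : MeasurableSet K) {s0 : ℝ}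
    (hint : ∀ s, s0 < s → IntegrableOn (fun x => rv f x ^ s) (U ∩ K)) {h : (Fin n → ℝ) → ℝ}
    (hm : Measurable h) (h0 : ∀ x, 0 ≤ h x) {c : ℝ} (hc : ∀ x, h x ≤ c)
    (hs : ∀ x, x ∉ K → h x = 0) :
    AnalyticOnNhd ℝ (fun t => ∫ x, Fs f U t x * h x) (Ioi s0) := by
  set μ : Measure (Fin n → ℝ) := (volume.restrict U).withDensity fun x => ENNReal.ofReal (h x)
    with hμ
  have hUm : MeasurableSet U := hf.op.measurableSet
  have hfm : Measurable (rv f) := (rv_cont f).measurable
  have hexp : ∀ t : ℝ, ∀ x ∈ U, Real.exp (t * Real.log (rv f x)) = rv f x ^ t := by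
    intro t x hx
    rw [Real.rpow_def_of_pos (hf.pos x hx), mul_comm]
  have e : (fun t => ∫ x, Fs f U t x * h x) =
      ProbabilityTheory.mgf (fun x => Real.log (rv f x)) μ := by
    funext t
    unfold ProbabilityTheory.mgf
    rw [hμ, integral_withDensity_eq_integral_toReal_smul hm.ennreal_ofReal
      (Eventually.of_forall fun x => ENNReal.ofReal_lt_top)]
    have h1 : ∀ x, Fs f U t x * h x = U.indicator (fun x => rv f x ^ t * h x) x := by
      intro x
      by_cases hx : x ∈ U
      · rw [Fs_in hx, indicator_of_mem hx]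
      · rw [Fs_out hx, indicator_of_notMem hx, zero_mul]
    simp only [h1]
    rw [integral_indicator hUm]
    refine setIntegral_congr_fun hUm fun x hx => ?_
    simp only [smul_eq_mul]
    rw [ENNReal.toReal_ofReal (h0 x), hexp t x hx]
    ring
  rw [e]
  refine (ProbabilityTheory.analyticOnNhd_mgf).mono ?_
  refine interior_maximal (fun t ht => ?_) isOpen_Ioi
  show Integrable _ _
  rw [hμ, integrable_withDensity_iff_integrable_smul₀' hm.ennreal_ofReal.aemeasurable
    (Eventually.of_forall fun x => ENNReal.ofReal_lt_top)]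
  have h1 : IntegrableOn (fun x => c * rv f x ^ t) (U ∩ K) := (hint t ht).const_mul c
  have h2 : IntegrableOn (fun x => (ENNReal.ofReal (h x)).toReal •
      Real.exp (t * Real.log (rv f x))) (U ∩ K) := by
    refine Integrable.mono' h1 ?_ ?_
    · refine Measurable.aestronglyMeasurable ?_
      exact (hm.ennreal_ofReal.ennreal_toReal).smul
        (((hfm.log).const_mul t).exp)
    · refine (ae_restrict_iff' (hUm.inter hKm)).2 (Eventually.of_forall fun x hx => ?_)
      rw [ENNReal.toReal_ofReal (h0 x), hexp t x hx.1, smul_eq_mul, Real.norm_eq_abs,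
        abs_of_nonneg (mul_nonneg (h0 x) (Real.rpow_nonneg (hf.pos x hx.1).le _))]
      exact mul_le_mul_of_nonneg_right (hc x) (Real.rpow_nonneg (hf.pos x hx.1).le _)
  have h3 : IntegrableOn (fun x => (ENNReal.ofReal (h x)).toReal •
      Real.exp (t * Real.log (rv f x))) (U \ K) := by
    have h4 : IntegrableOn (fun _ : Fin n → ℝ => (0 : ℝ)) (U \ K) := integrableOn_zero
    refine h4.congr_fun ?_ (hUm.diff hKm)
    intro x hx
    simp only
    rw [hs x hx.2]
    simp
  have h4 := h2.union h3
  rwa [inter_union_sdiff] at h4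

lemma analytic_ofRealS {g : ℝ → ℝ} {S : Set ℝ} (hg : AnalyticOnNhd ℝ g S) :
    AnalyticOnNhd ℝ (fun t => (g t : ℂ)) S := fun t ht =>
  (Complex.ofRealCLM.analyticAt _).comp (hg t ht)

/-- the integral with a test function is analytic -/
lemma anaS (hf : Reg f U) (hKm : MeasurableSet K) {s0 : ℝ}
    (hint : ∀ s, s0 < s → IntegrableOn (fun x => rv f x ^ s) (U ∩ K)) {g : (Fin n → ℝ) → ℂ}
    (hgm : Measurable g) {c : ℝ} (hc : ∀ x, ‖g x‖ ≤ c) (hgK : ∀ x, x ∉ K → g x = 0) :
    AnalyticOnNhd ℝ (fun t => ∫ x, (Fs f U t x : ℂ) * g x) (Ioi s0) := by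
  have hUm : MeasurableSet U := hf.op.measurableSet
  have hfm : Measurable (rv f) := (rv_cont f).measurable
  have hc0 : 0 ≤ c := (norm_nonneg _).trans (hc 0)
  -- the four parts
  have key : ∀ L : ℂ → ℝ, Measurable L → (∀ z, |L z| ≤ ‖z‖) →
      AnalyticOnNhd ℝ (fun t => ∫ x, Fs f U t x * max (L (g x)) 0) (Ioi s0) := by
    intro L hL hL1
    refine ana_posS hf hKm hint ((hL.comp hgm).max measurable_const) (fun x => le_max_right _ _)
      (c := c) (fun x => max_le ?_ hc0) (fun x hx => ?_)
    · exact (le_abs_self _).trans ((hL1 _).trans (hc x))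
    · rw [hgK x hx]
      have h1 := hL1 0
      rw [norm_zero] at h1
      have h2 : L 0 = 0 := abs_eq_zero.1 (le_antisymm h1 (abs_nonneg _))
      rw [h2, max_self]
  have k1 := key Complex.re Complex.measurable_re Complex.abs_re_le_norm
  have k2 := key (fun z => -Complex.re z) Complex.measurable_re.neg (fun z => by
    rw [abs_neg]
    exact Complex.abs_re_le_norm z)
  have k3 := key Complex.im Complex.measurable_im Complex.abs_im_le_norm
  have k4 := key (fun z => -Complex.im z) Complex.measurable_im.neg (fun z => by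
    rw [abs_neg]
    exact Complex.abs_im_le_norm z)
  have k5 := ((analytic_ofRealS k1).sub (analytic_ofRealS k2)).add
    ((analyticOnNhd_const (v := Complex.I)).mul ((analytic_ofRealS k3).sub (analytic_ofRealS k4)))
  refine k5.congr isOpen_Ioi fun t ht => ?_
  -- integrability
  have hI : ∀ L : ℂ → ℝ, Measurable L → (∀ z, |L z| ≤ ‖z‖) →
      Integrable fun x => Fs f U t x * max (L (g x)) 0 := by
    intro L hL hL1
    have h1 : IntegrableOn (fun x => c * rv f x ^ t) (U ∩ K) := (hint t ht).const_mul c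
    have h2 : Integrable ((U ∩ K).indicator fun x => c * rv f x ^ t) :=
      (integrable_indicator_iff (hUm.inter hKm)).2 h1
    refine Integrable.mono' h2 ?_ (Eventually.of_forall fun x => ?_)
    · refine Measurable.aestronglyMeasurable ?_
      refine Measurable.mul ?_ ((hL.comp hgm).max measurable_const)
      exact (hfm.pow_const t).indicator hUm
    · rw [Real.norm_eq_abs, abs_of_nonneg (mul_nonneg (Fs_nonneg hf t x) (le_max_right _ _))]
      by_cases hx : x ∈ U
      · by_cases hxK : x ∈ K
        · rw [indicator_of_mem (s := U ∩ K) ⟨hx, hxK⟩, Fs_in hx, mul_comm]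
          exact mul_le_mul_of_nonneg_right
            (max_le ((le_abs_self _).trans ((hL1 _).trans (hc x))) hc0)
            (Real.rpow_nonneg (hf.pos x hx).le _)
        · rw [indicator_of_notMem (s := U ∩ K) (fun h => hxK h.2), hgK x hxK]
          have h1 := hL1 0
          rw [norm_zero] at h1
          have h2 : L 0 = 0 := abs_eq_zero.1 (le_antisymm h1 (abs_nonneg _))
          rw [h2, max_self, mul_zero]
      · rw [indicator_of_notMem (s := U ∩ K) (fun h => hx h.1), Fs_out hx, zero_mul]
  have j1 : Integrable fun x => ((Fs f U t x * max (g x).re 0 : ℝ) : ℂ) :=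
    (hI Complex.re Complex.measurable_re Complex.abs_re_le_norm).ofReal
  have j2 : Integrable fun x => ((Fs f U t x * max (-(g x).re) 0 : ℝ) : ℂ) :=
    (hI (fun z => -Complex.re z) Complex.measurable_re.neg (fun z => by
      rw [abs_neg]
      exact Complex.abs_re_le_norm z)).ofReal
  have j3 : Integrable fun x => ((Fs f U t x * max (g x).im 0 : ℝ) : ℂ) :=
    (hI Complex.im Complex.measurable_im Complex.abs_im_le_norm).ofReal
  have j4 : Integrable fun x => ((Fs f U t x * max (-(g x).im) 0 : ℝ) : ℂ) :=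
    (hI (fun z => -Complex.im z) Complex.measurable_im.neg (fun z => by
      rw [abs_neg]
      exact Complex.abs_im_le_norm z)).ofReal
  show (((∫ x, Fs f U t x * max (g x).re 0 : ℝ) : ℂ) -
    ((∫ x, Fs f U t x * max (-(g x).re) 0 : ℝ) : ℂ)) + Complex.I *
    (((∫ x, Fs f U t x * max (g x).im 0 : ℝ) : ℂ) -
    ((∫ x, Fs f U t x * max (-(g x).im) 0 : ℝ) : ℂ)) = ∫ x, (Fs f U t x : ℂ) * g x
  rw [← integral_complex_ofReal, ← integral_complex_ofReal, ← integral_complex_ofReal,
    ← integral_complex_ofReal, ← integral_sub j1 j2, ← integral_sub j3 j4,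
    ← integral_const_mul]
  refine (integral_add (j1.sub j2) ((j3.sub j4).const_mul _)).symm.trans ?_
  refine integral_congr_ae (Eventually.of_forall fun x => ?_)
  simp only [Pi.sub_apply]
  have m1 : max (g x).re 0 - max (-(g x).re) 0 = (g x).re := by
    rcases le_total 0 (g x).re with h | h
    · rw [max_eq_left h, max_eq_right (by linarith), sub_zero]
    · rw [max_eq_right h, max_eq_left (by linarith)]
      ring
  have m2 : max (g x).im 0 - max (-(g x).im) 0 = (g x).im := by
    rcases le_total 0 (g x).im with h | h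
    · rw [max_eq_left h, max_eq_right (by linarith), sub_zero]
    · rw [max_eq_right h, max_eq_left (by linarith)]
      ring
  have m3 : g x = ((g x).re : ℂ) + Complex.I * ((g x).im : ℂ) := by
    rw [mul_comm]
    exact (Complex.re_add_im _).symm
  conv_rhs => rw [m3, ← m1, ← m2]
  push_cast
  ring

end

variable {n : ℕ} {κ : Type} [Fintype κ] {ζ : κ → Fin n → ℂ} {a : Fin n → ℕ}
  {f : MvPolynomial (Fin n) ℝ} {U : Set (Fin n → ℝ)}

/-- **Divergence of the integral gives a root.** -/
theorem rootS [Nonempty κ] (hf : Reg f U) (hi : Inv ζ f) (ha : ∀ i, 0 < a i) (hS : Sec a ζ)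
    (hf0 : cx f ≠ 0) {b : Polynomial ℂ} (hb : IsBFunction (cx f) b)
    {p px : Fin n → ℝ} (hpx : ∀ i, 0 ≤ px i) (hpp : pw a px = p) {ρ : ℝ} (hρ : 0 < ρ) {s0 : ℝ}
    (hint : ∀ s, s0 < s → IntegrableOn (fun x => rv f x ^ s) (U ∩ (Pos n ∩ closedBall px ρ)))
    (hdiv : ∀ ρ' : ℝ, 0 < ρ' → ρ' ≤ ρ → ∀ R : ℝ, ∃ᶠ t in 𝓝[>] s0,
      R < ∫ x in U ∩ (Pos n ∩ closedBall px (ρ' / 2)), rv f x ^ t) :
    b.eval (s0 : ℂ) = 0 := by
  by_contra hb0
  have hUm : MeasurableSet U := hf.op.measurableSet
  have hPm : MeasurableSet (Pos n) := Pos_open.measurableSet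
  -- the balls
  obtain ⟨ρ1, hρ1, hb1⟩ : ∃ ρ1 : ℝ, 0 < ρ1 ∧ ∀ y ∈ closedBall p ρ1, rt a y ∈ closedBall px ρ := by
    have h1 : ∀ᶠ y in 𝓝 p, rt a y ∈ closedBall px ρ := by
      refine (rt_cont a).continuousAt.eventually ?_
      have : rt a p = px := by rw [← hpp, rt_pw ha hpx]
      rw [this]
      exact closedBall_mem_nhds _ hρ
    exact nhds_basis_closedBall.eventually_iff.1 h1
  obtain ⟨ρ2, hρ2, hb2⟩ : ∃ ρ2 : ℝ, 0 < ρ2 ∧
      ∀ x ∈ closedBall px ρ2, pw a x ∈ closedBall p (ρ1 / 2) := by
    have h1 : ∀ᶠ x in 𝓝 px, pw a x ∈ closedBall p (ρ1 / 2) := by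
      refine (pw_cont a).continuousAt.eventually ?_
      rw [hpp]
      exact closedBall_mem_nhds _ (by linarith)
    exact nhds_basis_closedBall.eventually_iff.1 h1
  set K := closedBall p ρ1 with hK'
  have hK : IsCompact K := isCompact_closedBall p ρ1
  set K' := Pos n ∩ closedBall px ρ with hK''
  have hK'm : MeasurableSet K' := hPm.inter measurableSet_closedBall
  have hPK : ∀ x ∈ Pos n, pw a x ∈ K → x ∈ K' := by
    intro x hx hxK
    refine ⟨hx, ?_⟩
    have h1 := hb1 _ hxK
    rwa [rt_pw ha fun i => (hx i).le] at h1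
  obtain ⟨S, A, M, hM, hA, hfe⟩ := real_eqS hf hi ha hS hK hf0 hb
  set φ : ContDiffBump p := ⟨ρ1 / 2, ρ1, by linarith, by linarith⟩ with hφ
  have hφT : IsT K (fun y => ((φ y : ℝ) : ℂ)) := by
    refine ⟨Complex.ofRealCLM.contDiff.comp φ.contDiff, ?_⟩
    have h1 : tsupport (fun y => ((φ y : ℝ) : ℂ)) ⊆ tsupport φ := by
      refine closure_mono fun x hx => ?_
      rw [Function.mem_support] at hx ⊢
      intro h0
      exact hx (by rw [h0, Complex.ofReal_zero])
    exact h1.trans φ.tsupport_eq.subset
  set g : κ → (Fin n → ℝ) → ℂ := fun _ x => ((φ (pw a x) : ℝ) : ℂ) with hg'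
  have hg : g ∈ TS a ζ K := by
    refine Submodule.subset_span ⟨1, _, hφT, ?_⟩
    funext k x
    rw [map_one, map_one, one_mul]
  -- analyticity
  have hana : ∀ g, g ∈ TS a ζ K → AnalyticOnNhd ℝ (fun t => PT f U t g) (Ioi s0) := by
    intro g hg
    have h1 : ∀ t, PT f U t g = ∑ k, ∫ x, (Fs f U t x : ℂ) * (Pos n).indicator (g k) x := by
      intro t
      unfold PT
      refine Finset.sum_congr rfl fun k _ => ?_
      rw [← integral_indicator hPm]
      refine integral_congr_ae (Eventually.of_forall fun x => ?_)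
      by_cases hx : x ∈ Pos n
      · simp only [indicator_of_mem hx]
      · simp only [indicator_of_notMem hx, mul_zero]
    simp only [h1]
    refine Finset.analyticOnNhd_fun_sum _ fun k _ => ?_
    have hgc := (TS_sm hg k).continuous
    obtain ⟨c, hc⟩ := hgc.bounded_above_of_compact_support (TS_cs ha hK hg k)
    refine anaS hf hK'm hint (hgc.measurable.indicator hPm) (c := c) (fun x => ?_) fun x hx => ?_
    · exact (norm_indicator_le_norm_self _ _).trans (hc x)
    · by_cases hxP : x ∈ Pos n
      · rw [indicator_of_mem hxP]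
        exact TS_su hg k fun h => hx (hPK x hxP h)
      · exact indicator_of_notMem hxP _
  -- the functional equation for `s > s0`
  have hfe2 : EqOn (fun t : ℝ => b.eval (t : ℂ) * PT f U t g -
      ∑ m ∈ S, (t : ℂ) ^ m * PT f U (t + 1) (A m g)) 0 (Ioi s0) := by
    refine AnalyticOnNhd.eqOn_zero_of_preconnected_of_eventuallyEq_zero (𝕜 := ℝ) ?_
      isPreconnected_Ioi (z₀ := max M s0 + 1) ?_ ?_
    · have hc : AnalyticOnNhd ℝ (fun t : ℝ => (t : ℂ)) (Ioi s0) := fun t _ =>
        Complex.ofRealCLM.analyticAt t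
      have hp : AnalyticOnNhd ℝ (fun t : ℝ => b.eval (t : ℂ)) (Ioi s0) := by
        intro t ht
        have h1 : AnalyticAt ℝ (fun z : ℂ => b.eval z) (t : ℂ) := by
          have h2 : AnalyticAt ℂ (fun z : ℂ => Polynomial.aeval z b) (t : ℂ) :=
            AnalyticAt.aeval_polynomial analyticAt_id b
          have h3 := h2.restrictScalars (𝕜 := ℝ)
          refine h3.congr (Eventually.of_forall fun z => ?_)
          simp only [Polynomial.coe_aeval_eq_eval]
        exact h1.comp (hc t ht)
      refine (hp.mul (hana g hg)).sub ?_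
      refine Finset.analyticOnNhd_fun_sum S fun m _ => ?_
      refine (hc.pow m).mul ?_
      intro t ht
      have h1 : AnalyticAt ℝ (fun t => PT f U t (A m g)) (t + 1) := hana _ (hA m g hg) _ (by
        simp only [mem_Ioi] at ht ⊢
        linarith)
      exact h1.comp_of_eq (analyticAt_id.add analyticAt_const) rfl
    · simp only [mem_Ioi]
      have := le_max_right M s0
      linarith
    · have h1 : Ioi M ∈ 𝓝 (max M s0 + 1) := Ioi_mem_nhds (by
        have := le_max_left M s0
        linarith)
      filter_upwards [h1] with t ht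
      simp only [Pi.zero_apply]
      rw [hfe t ht g hg, sub_self]
  -- the right side is bounded
  have hR : ContinuousAt (fun t : ℝ => ∑ m ∈ S, (t : ℂ) ^ m * PT f U (t + 1) (A m g)) s0 := by
    refine tendsto_finset_sum _ fun m _ => ?_
    have h1 : ContinuousAt (fun t => PT f U t (A m g)) (s0 + 1) :=
      (hana _ (hA m g hg) _ (by simp only [mem_Ioi]; linarith)).continuousAt
    have h2 : ContinuousAt ((fun t => PT f U t (A m g)) ∘ fun t : ℝ => t + 1) s0 :=
      ContinuousAt.comp (x := s0) (f := fun t : ℝ => t + 1) h1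
        (continuous_id.add continuous_const).continuousAt
    have h3 : ContinuousAt (fun t : ℝ => (t : ℂ) ^ m) s0 := by fun_prop
    exact h3.mul h2
  have hB : ContinuousAt (fun t : ℝ => b.eval (t : ℂ)) s0 :=
    (b.continuous.comp Complex.continuous_ofReal).continuousAt
  have hT : Tendsto (fun t => PT f U t g) (𝓝[>] s0) (𝓝 ((∑ m ∈ S, (s0 : ℂ) ^ m *
      PT f U (s0 + 1) (A m g)) / b.eval (s0 : ℂ))) := by
    have h1 := (hR.tendsto.div hB.tendsto hb0).mono_left (nhdsWithin_le_nhds (s := Ioi s0))
    refine h1.congr' ?_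
    have h2 : ∀ᶠ t : ℝ in 𝓝[>] s0, b.eval (t : ℂ) ≠ 0 :=
      (hB.eventually_ne hb0).filter_mono nhdsWithin_le_nhds
    filter_upwards [h2, self_mem_nhdsWithin] with t ht ht0
    have h3 := hfe2 ht0
    simp only [Pi.zero_apply] at h3
    rw [Pi.div_apply, ← sub_eq_zero.1 h3, mul_div_cancel_left₀ _ ht]
  have hbd : ∃ R : ℝ, ∀ᶠ t in 𝓝[>] s0, ‖PT f U t g‖ ≤ R := by
    refine ⟨‖(∑ m ∈ S, (s0 : ℂ) ^ m * PT f U (s0 + 1) (A m g)) / b.eval (s0 : ℂ)‖ + 1, ?_⟩
    have h1 := hT.norm.eventually (gt_mem_nhds (lt_add_one _))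
    filter_upwards [h1] with t ht
    exact ht.le
  obtain ⟨R, hRb⟩ := hbd
  set ρ' := min ρ ρ2 with hρ'
  have hρ'0 : 0 < ρ' := lt_min hρ hρ2
  have hfr := hdiv ρ' hρ'0 (min_le_left _ _) R
  refine hfr ?_
  filter_upwards [hRb, self_mem_nhdsWithin] with t ht ht0 hlt
  have hφc : Continuous fun x : Fin n → ℝ => φ (pw a x) := φ.continuous.comp (pw_cont a)
  -- comparison
  have h1 : (∫ x in U ∩ (Pos n ∩ closedBall px (ρ' / 2)), rv f x ^ t) ≤
      ∫ x in Pos n, Fs f U t x * φ (pw a x) := by
    have hi1 : Integrable ((Pos n).indicator fun x => Fs f U t x * φ (pw a x)) := by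
      have h1 : IntegrableOn (fun x => rv f x ^ t) (U ∩ K') := hint t ht0
      have h2 : Integrable ((U ∩ K').indicator fun x => rv f x ^ t) :=
        (integrable_indicator_iff (hUm.inter hK'm)).2 h1
      refine Integrable.mono' h2 ?_ (Eventually.of_forall fun x => ?_)
      · refine Measurable.aestronglyMeasurable ?_
        refine Measurable.indicator ?_ hPm
        exact ((((rv_cont f).measurable).pow_const t).indicator hUm).mul hφc.measurable
      · by_cases hxP : x ∈ Pos n
        · rw [indicator_of_mem hxP, Real.norm_eq_abs,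
            abs_of_nonneg (mul_nonneg (Fs_nonneg hf t x) φ.nonneg)]
          by_cases hx : x ∈ U
          · by_cases hxK : x ∈ K'
            · rw [indicator_of_mem (s := U ∩ K') ⟨hx, hxK⟩, Fs_in hx]
              exact mul_le_of_le_one_right (Real.rpow_nonneg (hf.pos x hx).le _) φ.le_one
            · rw [indicator_of_notMem (s := U ∩ K') (fun h => hxK h.2)]
              have h3 : φ (pw a x) = 0 := by
                by_contra h4
                exact hxK (hPK x hxP (φ.tsupport_eq.subset (subset_tsupport φ h4)))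
              rw [h3, mul_zero]
          · rw [indicator_of_notMem (s := U ∩ K') (fun h => hx h.1), Fs_out hx,
              zero_mul]
        · rw [indicator_of_notMem hxP, norm_zero]
          exact indicator_nonneg (fun y hy => Real.rpow_nonneg (hf.pos y hy.1).le _) x
    rw [← integral_indicator (hUm.inter (hPm.inter measurableSet_closedBall)),
      ← integral_indicator hPm]
    refine integral_mono_of_nonneg (Eventually.of_forall fun x => ?_) hi1
      (Eventually.of_forall fun x => ?_)
    · exact indicator_nonneg (fun y hy => Real.rpow_nonneg (hf.pos y hy.1).le _) x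
    · show (U ∩ (Pos n ∩ closedBall px (ρ' / 2))).indicator _ x ≤
        (Pos n).indicator (fun x => Fs f U t x * φ (pw a x)) x
      by_cases hx : x ∈ U ∩ (Pos n ∩ closedBall px (ρ' / 2))
      · have h5 : pw a x ∈ closedBall p (ρ1 / 2) := by
          refine hb2 x (closedBall_subset_closedBall ?_ hx.2.2)
          have := min_le_right ρ ρ2
          linarith
        rw [indicator_of_mem hx, indicator_of_mem hx.2.1, Fs_in hx.1,
          φ.one_of_mem_closedBall h5, mul_one]
      · rw [indicator_of_notMem hx]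
        refine indicator_nonneg (fun y _ => ?_) x
        exact mul_nonneg (Fs_nonneg hf t y) φ.nonneg
  have h2 : ‖PT f U t g‖ = Fintype.card κ * ∫ x in Pos n, Fs f U t x * φ (pw a x) := by
    have h3 : PT f U t g = ((Fintype.card κ * ∫ x in Pos n, Fs f U t x * φ (pw a x) : ℝ) : ℂ) := by
      unfold PT
      have e : ∀ k ∈ (Finset.univ : Finset κ), ∫ x in Pos n, (Fs f U t x : ℂ) * g k x =
          ((∫ x in Pos n, Fs f U t x * φ (pw a x) : ℝ) : ℂ) := by
        intro k _
        rw [← integral_complex_ofReal]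
        refine integral_congr_ae (Eventually.of_forall fun x => ?_)
        simp only [hg']
        push_cast
        rfl
      rw [Finset.sum_congr rfl e, Finset.sum_const, Finset.card_univ, nsmul_eq_mul]
      push_cast
      rfl
    rw [h3, Complex.norm_real, Real.norm_eq_abs, abs_of_nonneg]
    refine mul_nonneg (Nat.cast_nonneg _) ?_
    exact integral_nonneg fun x => mul_nonneg (Fs_nonneg hf t x) φ.nonneg
  have h3 : (1 : ℝ) ≤ Fintype.card κ := by
    exact_mod_cast Fintype.card_pos
  have h4 : 0 ≤ ∫ x in Pos n, Fs f U t x * φ (pw a x) :=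
    integral_nonneg fun x => mul_nonneg (Fs_nonneg hf t x) φ.nonneg
  have h5 : (∫ x in Pos n, Fs f U t x * φ (pw a x)) ≤
      Fintype.card κ * ∫ x in Pos n, Fs f U t x * φ (pw a x) :=
    le_mul_of_one_le_left h4 h3
  linarith

end Pool.Agent.T6.H16.RW
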